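import Mathlib

/-!
# Project ZT (helper839): zero-free strips of a completed L-function and of its derivatives

Statements of the analytic lemmas (Mathlib only).
-/

set_option autoImplicit false

open Complex Filter Topology Set Metric MeasureTheory
open scoped ComplexConjugate

namespace Pool.Agent.TH839.ZT

/-- NE: in a zero-free region a function that looks like `P exp (h u)` on the right looks like this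
everywhere, together with its logarithmic derivative (three circles theorem, Borel-Caratheodory) -/
def S_NE : Prop := ∀ δ ε : ℝ, 0 < δ → δ ≤ 1 → 0 < ε → ∃ κ : ℝ, 0 < κ ∧
  ∀ (h P η : ℝ) (F : ℂ → ℂ), 1 ≤ h → 0 < P → 0 ≤ η → η ≤ 2 → Differentiable ℂ F →
    (∀ u : ℂ, η ≤ u.re → |u.im| ≤ 20 → F u ≠ 0) →
    (∀ u : ℂ, ‖u‖ ≤ 40 → ‖F u‖ ≤ P * Real.exp (h * max |u.re| 3 + κ * h)) →
    (∀ u : ℂ, 3 ≤ u.re → ‖u‖ ≤ 40 → P * Real.exp (h * u.re - κ * h) ≤ ‖F u‖) →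
    ∀ u : ℂ, η + δ ≤ u.re → u.re ≤ 4 → |u.im| ≤ 1 →
      P * Real.exp (h * u.re - ε * h) ≤ ‖F u‖ ∧ ‖F u‖ ≤ P * Real.exp (h * u.re + ε * h) ∧
        ‖deriv F u / F u - h‖ ≤ ε * h

/-- SAD: Laplace's method for the `n`-fold primitive of `exp (h w + g w)`, `n` up to `κ h` -/
def S_SAD : Prop := ∃ ε0 : ℝ, 0 < ε0 ∧ ∀ ρ : ℝ, 0 < ρ → ρ ≤ 1 → ∃ κ h0 : ℝ, 0 < κ ∧
  ∀ (h : ℝ) (n : ℕ) (g : ℂ → ℂ), h0 ≤ h → 1 ≤ n → (n : ℝ) ≤ κ * h →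
    DifferentiableOn ℂ g (ball 0 ρ) → g 0 = 0 → (∀ w ∈ ball (0 : ℂ) ρ, ‖deriv g w‖ ≤ ε0 * h) →
    ∃ e : ℂ, ‖e‖ = 1 ∧ ‖e - 1‖ ≤ 1 / 8 ∧
      ((4 * h) ^ n)⁻¹ ≤ ‖∫ v in (0 : ℝ)..(ρ / 2),
        (v : ℂ) ^ (n - 1) / ((n - 1).factorial : ℂ) * cexp (-(h * (v * e)) + g (-(v * e)))‖

/-- SADU: the `n`-th derivative of `exp (h w + g w)` does not vanish, `n` up to `κ h` -/
def S_SADU : Prop := ∃ ε0 : ℝ, 0 < ε0 ∧ ∀ ρ : ℝ, 0 < ρ → ρ ≤ 1 → ∃ κ h0 : ℝ, 0 < κ ∧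
  ∀ (h : ℝ) (n : ℕ) (f g : ℂ → ℂ), h0 ≤ h → (n : ℝ) ≤ κ * h → Differentiable ℂ f →
    DifferentiableOn ℂ g (ball 0 ρ) → g 0 = 0 → (∀ w ∈ ball (0 : ℂ) ρ, ‖deriv g w‖ ≤ ε0 * h) →
    (∀ w ∈ ball (0 : ℂ) ρ, f w = cexp (h * w + g w)) → iteratedDeriv n f 0 ≠ 0

/-- TAY: Taylor's formula with integral remainder along a segment -/
def S_TAY : Prop := ∀ (X : ℂ → ℂ) (n : ℕ) (s e : ℂ) (R : ℝ), Differentiable ℂ X → 1 ≤ n → 0 ≤ R →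
  X s = (∑ k ∈ Finset.range n, iteratedDeriv k X (s - R * e) * (R * e) ^ k / (k.factorial : ℂ)) +
    ∫ v in (0 : ℝ)..R, iteratedDeriv n X (s - v * e) * (v * e) ^ (n - 1) /
      ((n - 1).factorial : ℂ) * e

end Pool.Agent.TH839.ZT
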