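import Pool.Agent.TH839.ZT.Down
import Pool.Agent.TH839.LD.Eqv

/-!
# Project ZT: families
-/

set_option autoImplicit false

open Complex Filter Topology Set
open scoped ComplexConjugate

namespace Pool.Agent.TH839.ZT

open Pool.Agent.W169.HF H353.E Pool.Agent.W355.UN Pool.Agent.TH839.UH Pool.Agent.TH839.UH.EP
  Pool.Agent.TH839.LD
open Pool.Agent.TH839.UH.NF (B0 B0_nonneg)

variable {m r : ℕ} {N : ℝ} {a : Fin m → ℂ} {α : Nat.Primes → Fin m → ℂ} {X : ℂ → ℂ}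

/-- the `n`-th derivative has no zeros in `Re s ≥ 1/2 + x`, `|Im s - T| ≤ W` -/
def NoZ (F : ℂ → ℂ) (n : ℕ) (x T W : ℝ) : Prop := ∀ s : ℂ, 1 / 2 + x ≤ s.re → |s.im - T| ≤ W →
  iteratedDeriv n F s ≠ 0

lemma NoZ.mono {F : ℂ → ℂ} {n : ℕ} {x x' T W W' : ℝ} (h : NoZ F n x T W) (hx : x ≤ x')
    (hW : W' ≤ W) : NoZ F n x' T W' :=
  fun s h1 h2 => h s (by linarith) (h2.trans hW)

/-- from a derivative to the function -/
theorem fam_down (hne : S_NE) (hsad : S_SAD) (htay : S_TAY) (m : ℕ) (A δ : ℝ) (hA : 0 ≤ A)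
    (hδ : 0 < δ) : ∃ κ W X0 : ℝ, 0 < κ ∧ ∀ (r : ℕ) (N : ℝ) (a : Fin m → ℂ)
      (α : Nat.Primes → Fin m → ℂ) (X : ℂ → ℂ), HW m r N a α X → (∀ j, ‖a j‖ ≤ A) →
      ∀ (T η : ℝ) (n : ℕ), X0 ≤ cd N a T → 0 ≤ η →
        n * Real.log (Real.log (cd N a T)) ≤ κ * Real.log (cd N a T) →
        NoZ X n η T (W * Real.log (cd N a T)) → NoZ X 0 (η + δ) T 1 := by
  have hB := B0_nonneg
  obtain ⟨Dc, HD⟩ := dec m A hA
  obtain ⟨κ, h0, hκ, H⟩ := down_ul hne hsad htay m (4 * B0 + 2) (by linarith) Dc (min δ 1)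
    (by positivity) (min_le_right _ _)
  have E : ∀ C k : ℝ, 0 < k → ∀ᶠ h : ℝ in atTop, C ≤ k * h := fun C k hk =>
    (tendsto_id.const_mul_atTop hk).eventually_ge_atTop C
  obtain ⟨x0, hx0⟩ := eventually_atTop.1 (Real.tendsto_log_atTop.eventually
    ((E 2 1 one_pos).and (E (2 * h0) 1 one_pos)))
  refine ⟨κ / 2, 31, x0, by positivity, ?_⟩
  intro r N a α X h hAa T η n hX0 hη hn hz
  obtain ⟨l, hl⟩ : ∃ l : ℝ, l = Real.log (cd N a T) := ⟨_, rfl⟩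
  have hcd := hc_cd N a T
  obtain ⟨b1, b2⟩ := hx0 _ hX0
  rw [← hl] at hcd b1 b2 hn hz
  rw [one_mul] at b1 b2
  have hn0 : (0 : ℝ) ≤ n := Nat.cast_nonneg n
  have R := H _ N (fun j => -a j) X _ h.ul rfl (HD r N a α X h hAa) n η T hη
    (by rw [hcd]; linarith) ?_ ?_
  · intro s hs1 hs2
    rw [iteratedDeriv_zero]
    refine R s ?_ hs2
    have := min_le_left δ 1
    linarith
  · rw [hcd]
    have h1 : Real.log (l / 2) ≤ Real.log l := Real.log_le_log (by linarith) (by linarith)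
    calc (n : ℝ) * Real.log (l / 2) ≤ n * Real.log l := mul_le_mul_of_nonneg_left h1 hn0
      _ ≤ _ := hn
      _ = _ := by ring
  · intro s hs1 hs2
    refine hz s hs1 (hs2.trans (le_of_eq ?_))
    rw [hcd]
    ring

/-- from the function to the derivatives -/
theorem fam_up (hne : S_NE) (hsadu : S_SADU) (m : ℕ) (δ : ℝ) (hδ : 0 < δ) :
    ∃ κ X0 : ℝ, 0 < κ ∧ ∀ (r : ℕ) (N : ℝ) (a : Fin m → ℂ)
      (α : Nat.Primes → Fin m → ℂ) (X : ℂ → ℂ), HW m r N a α X →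
      ∀ (T η : ℝ) (n : ℕ), X0 ≤ cd N a T → 0 ≤ η → n ≤ κ * Real.log (cd N a T) →
        NoZ X 0 η T 21 → NoZ X n (η + δ) T 1 := by
  obtain ⟨κ, h0, hκ, H⟩ := up_ul hne hsadu m (4 * B0 + 2) (min δ 1) (by positivity)
    (min_le_right _ _)
  have E : ∀ C k : ℝ, 0 < k → ∀ᶠ h : ℝ in atTop, C ≤ k * h := fun C k hk =>
    (tendsto_id.const_mul_atTop hk).eventually_ge_atTop C
  obtain ⟨x0, hx0⟩ := eventually_atTop.1 (Real.tendsto_log_atTop.eventually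
    (E (2 * h0) 1 one_pos))
  refine ⟨κ / 2, x0, by positivity, ?_⟩
  intro r N a α X h T η n hX0 hη hn hz
  have hcd := hc_cd N a T
  have b2 := hx0 _ hX0
  rw [one_mul] at b2
  have R := H _ N (fun j => -a j) X _ h.ul rfl n η T hη (by rw [hcd]; linarith)
    (by rw [hcd]; linarith) (fun s hs1 hs2 => by
      have := hz s hs1 hs2
      rwa [iteratedDeriv_zero] at this)
  intro s hs1 hs2
  refine R s ?_ hs2
  have := min_le_left δ 1
  linarith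

end Pool.Agent.TH839.ZT
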