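import Pool.Agent.TH839.ZT.Cnt
import Pool.Agent.TH839.ZT.Fam
import Pool.Agent.TH839.LD.Ins

/-!
# Project ZT: the zeta function
-/

set_option autoImplicit false

open Complex Filter Topology Set
open scoped ComplexConjugate

namespace Pool.Agent.TH839.ZT

open Pool.Agent.W169.HF H353.E Pool.Agent.W355.UN Pool.Agent.TH839.UH Pool.Agent.TH839.UH.EP
  Pool.Agent.TH839.LD Pool.Agent.W186.LH
open Pool.Agent.TH839.UH.NF (B0 B0_nonneg)

/-- `ξ` -/
noncomputable def xi (s : ℂ) : ℂ := s * (s - 1) * completedRiemannZeta₀ s + 1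

lemma xi_hw : HW 1 1 1 (fun _ => 0) (fun _ _ => 1) xi := zeta_hw

lemma cdz (T : ℝ) : cd 1 (fun _ : Fin 1 => 0) T = 1 + |T| := by
  rw [cd_one, one_mul, add_zero, norm_mul, Complex.norm_I, mul_one, Complex.norm_real,
    Real.norm_eq_abs]

lemma xi_eq {s : ℂ} (h0 : 0 < s.re) (h1 : s ≠ 1) : xi s = s * (s - 1) * Gammaℝ s * riemannZeta s := by
  have hs0 : s ≠ 0 := fun h => by rw [h] at h0; simp at h0
  have hg : Gammaℝ s ≠ 0 := Gammaℝ_ne_zero_of_re_pos h0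
  have h := zeta_L hs0 h1
  have h2 : gm 1 1 (fun _ : Fin 1 => 0) s = s * (s - 1) * Gammaℝ s := by
    unfold gm
    simp
  rw [h2] at h
  have h3 : s * (s - 1) * Gammaℝ s ≠ 0 := mul_ne_zero (mul_ne_zero hs0 (sub_ne_zero.2 h1)) hg
  rw [← h]
  field_simp
  rfl

lemma xi_zero {s : ℂ} (h0 : 0 < s.re) (h1 : s ≠ 1) : xi s = 0 ↔ riemannZeta s = 0 := by
  have hs0 : s ≠ 0 := fun h => by rw [h] at h0; simp at h0
  have hg : Gammaℝ s ≠ 0 := Gammaℝ_ne_zero_of_re_pos h0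
  rw [xi_eq h0 h1, mul_eq_zero, or_iff_right]
  exact mul_ne_zero (mul_ne_zero hs0 (sub_ne_zero.2 h1)) hg

lemma xi_ord {s : ℂ} (h0 : 0 < s.re) (h1 : s ≠ 1) :
    analyticOrderNatAt xi s = analyticOrderNatAt riemannZeta s := by
  have hs0 : s ≠ 0 := fun h => by rw [h] at h0; simp at h0
  have hg : Gammaℝ s ≠ 0 := Gammaℝ_ne_zero_of_re_pos h0
  have hopen : IsOpen {z : ℂ | 0 < z.re ∧ z ≠ 1} :=
    (isOpen_lt continuous_const Complex.continuous_re).inter isOpen_ne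
  have hG : AnalyticAt ℂ (fun z => z * (z - 1) * Gammaℝ z) s := by
    have hd : DifferentiableOn ℂ (fun z => z * (z - 1) * Gammaℝ z) {z : ℂ | 0 < z.re ∧ z ≠ 1} := by
      intro z hz
      have h3 : DifferentiableAt ℂ Gammaℝ z := by
        have h4 := differentiable_Gammaℝ_inv z
        have h5 := h4.inv (inv_ne_zero (Gammaℝ_ne_zero_of_re_pos hz.1))
        have e : (fun s => ((Gammaℝ s)⁻¹)⁻¹) = Gammaℝ := by
          funext s
          rw [inv_inv]
        have e2 : (fun s => (Gammaℝ s)⁻¹)⁻¹ = Gammaℝ := e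
        first
          | rwa [e2] at h5
          | simpa using h5
      have h6 : DifferentiableAt ℂ (fun z : ℂ => z * (z - 1)) z := by fun_prop
      exact (h6.mul h3).differentiableWithinAt
    exact hd.analyticAt (hopen.mem_nhds ⟨h0, h1⟩)
  have hZ : AnalyticAt ℂ riemannZeta s := by
    have hd : DifferentiableOn ℂ riemannZeta {z : ℂ | 0 < z.re ∧ z ≠ 1} := fun z hz =>
      (differentiableAt_riemannZeta hz.2).differentiableWithinAt
    exact hd.analyticAt (hopen.mem_nhds ⟨h0, h1⟩)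
  have he : xi =ᶠ[𝓝 s] (fun z => z * (z - 1) * Gammaℝ z) * riemannZeta := by
    filter_upwards [hopen.mem_nhds ⟨h0, h1⟩] with z hz
    exact xi_eq hz.1 hz.2
  unfold analyticOrderNatAt
  rw [analyticOrderAt_congr he, analyticOrderAt_mul hG hZ,
    hG.analyticOrderAt_eq_zero.2 (mul_ne_zero (mul_ne_zero hs0 (sub_ne_zero.2 h1)) hg), zero_add]

lemma reg_xi {σ U T : ℝ} (hσ : 0 < σ) (hU : 0 ≤ U) : reg xi σ U T = reg riemannZeta σ U T := by
  ext s
  unfold reg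
  rw [mem_setOf_eq, mem_setOf_eq]
  constructor
  · rintro ⟨h1, h2, h3, h4⟩
    have hs1 : s ≠ 1 := fun h => by rw [h, one_im] at h3; linarith
    exact ⟨(xi_zero (by linarith) hs1).1 h1, h2, h3, h4⟩
  · rintro ⟨h1, h2, h3, h4⟩
    have hs1 : s ≠ 1 := fun h => by rw [h, one_im] at h3; linarith
    exact ⟨(xi_zero (by linarith) hs1).2 h1, h2, h3, h4⟩

lemma num_xi {σ U T : ℝ} (hσ : 0 < σ) (hU : 0 ≤ U) : num xi σ U T = num riemannZeta σ U T := by
  unfold num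
  rw [reg_xi hσ hU]
  refine finsum_mem_congr rfl fun s hs => ?_
  obtain ⟨h1, h2, h3, h4⟩ := hs
  have hs1 : s ≠ 1 := fun h => by rw [h, one_im] at h3; linarith
  exact xi_ord (by linarith) hs1

lemma ord_ge {G : ℂ → ℂ} (hG : Differentiable ℂ G) (hne : ∃ u, G u ≠ 0) {s : ℂ} (hs : G s = 0) :
    1 ≤ analyticOrderNatAt G s := by
  obtain ⟨h, -, hh0, hGh⟩ := single hG hne s
  rw [Nat.one_le_iff_ne_zero]
  intro h0
  rw [h0] at hGh
  have := hGh s
  rw [pow_zero, one_mul, hs] at this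
  exact hh0 this.symm

lemma fin_n (n : ℕ) (σ U T : ℝ) : (reg (iteratedDeriv n xi) σ U T).Finite := reg_finite xi_hw.ul n σ U T

lemma ord_n (n : ℕ) {s : ℂ} (hs : iteratedDeriv n xi s = 0) :
    1 ≤ analyticOrderNatAt (iteratedDeriv n xi) s :=
  ord_ge (iter_diff xi_hw.ul n) (iter_ne xi_hw.ul le_rfl n) hs

/-- windows -/
theorem winz (A : ℝ) (hA : 0 ≤ A) : ∃ K T0 : ℝ, 0 < K ∧ 2 ≤ T0 ∧ ∀ (T : ℝ) (n : ℕ), T0 ≤ T →
    n ≤ A * Real.log T → ∀ (σ U y : ℝ) (S : Finset ℂ), 1 / 2 ≤ σ → 0 ≤ U →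
      (∀ s ∈ S, s ∈ reg (iteratedDeriv n xi) σ U T ∧ |s.im - y| ≤ 1) →
        ∑ s ∈ S, (analyticOrderNatAt (iteratedDeriv n xi) s : ℝ) ≤ K * Real.log T := by
  have hB := B0_nonneg
  obtain ⟨K0, hK0⟩ : ∃ K0 : ℝ, K0 = 1458 * (1 * (18 + (4 * B0 + 2))) := ⟨_, rfl⟩
  have hK00 : 0 ≤ K0 := by rw [hK0]; positivity
  refine ⟨11 + 197 * (K0 + 3888 * A), 3, by positivity, by norm_num, ?_⟩
  intro T n hT hn σ U y S hσ hU hS
  have hlog1 : 1 ≤ Real.log T := by
    rw [Real.le_log_iff_exp_le (by linarith)]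
    linarith [Real.exp_one_lt_d9]
  rcases S.eq_empty_or_nonempty with h0 | ⟨z, hz⟩
  · rw [h0, Finset.sum_empty]
    positivity
  obtain ⟨⟨z1, z2, z3, z4⟩, z5⟩ := hS z hz
  have hy : 1 + |y| ≤ T ^ 2 := by
    have h1 := abs_le.1 z5
    have h2 : |y| ≤ T + 1 := by
      rw [abs_le]
      constructor <;> linarith
    nlinarith
  have h1 := win_ul xi_hw.ul n y S fun s hs => by
    obtain ⟨⟨s1, s2, s3, s4⟩, s5⟩ := hS s hs
    exact ⟨s1, by linarith, s5⟩
  rw [hc_cd, cdz] at h1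
  have h2 : Real.log (1 + |y|) ≤ 2 * Real.log T := by
    have := Real.log_le_log (by positivity) hy
    rwa [Real.log_pow, Nat.cast_ofNat] at this
  have h3 : Kn 1 (4 * B0 + 2) n = K0 + 3888 * n := by
    unfold Kn
    rw [hK0]
    push_cast
    ring
  rw [h3] at h1
  have h4 : K0 * 1 ≤ K0 * Real.log T := mul_le_mul_of_nonneg_left hlog1 hK00
  calc _ ≤ _ := h1
    _ ≤ 11 * Real.log T + 197 * (K0 * Real.log T + 3888 * (A * Real.log T)) := by linarith
    _ = _ := by ring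

end Pool.Agent.TH839.ZT
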