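import Pool.Agent.TH839.ZT.Zeta

/-!
# Project ZT: comparison of the zeros of zeta and of the derivatives of xi
-/

set_option autoImplicit false

open Complex Filter Topology Set
open scoped ComplexConjugate

namespace Pool.Agent.TH839.ZT

open Pool.Agent.W169.HF H353.E Pool.Agent.W355.UN Pool.Agent.TH839.UH Pool.Agent.TH839.UH.EP
  Pool.Agent.TH839.LD Pool.Agent.W186.LH
open Pool.Agent.TH839.UH.NF (B0 B0_nonneg)

/-- local form, from a derivative to zeta: near a zero of the `n`-th derivative there is a zero of zeta -/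
theorem loc_up (hne : S_NE) (hsadu : S_SADU) (δ : ℝ) (hδ : 0 < δ) : ∃ κ X0 : ℝ, 0 < κ ∧ 22 ≤ X0 ∧
    ∀ (σ : ℝ) (n : ℕ) (s : ℂ), 1 / 2 ≤ σ → X0 ≤ s.im → n ≤ κ * Real.log s.im →
      iteratedDeriv n xi s = 0 → σ + δ ≤ s.re →
        ∃ z : ℂ, riemannZeta z = 0 ∧ σ ≤ z.re ∧ |z.im - s.im| ≤ 21 := by
  obtain ⟨κ, X0, hκ, H⟩ := fam_up hne hsadu 1 δ hδ
  refine ⟨κ, max X0 22, hκ, le_max_right _ _, ?_⟩
  intro σ n s hσ hs hn hz hre
  have hs22 : 22 ≤ s.im := (le_max_right _ _).trans hs
  have habs : |s.im| = s.im := abs_of_nonneg (by linarith)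
  have hcd : cd 1 (fun _ : Fin 1 => 0) s.im = 1 + s.im := by rw [cdz, habs]
  by_contra hcon
  push Not at hcon
  refine H 1 1 (fun _ => 0) (fun _ _ => 1) xi xi_hw s.im (σ - 1 / 2) n ?_ (by linarith) ?_ ?_ s
    (by linarith) (by simp) hz
  · rw [hcd]
    have := (le_max_left X0 22).trans hs
    linarith
  · rw [hcd]
    refine hn.trans (mul_le_mul_of_nonneg_left ?_ hκ.le)
    exact Real.log_le_log (by linarith) (by linarith)
  · intro z hz1 hz2 hz3
    rw [iteratedDeriv_zero] at hz3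
    have h1 := abs_le.1 hz2
    have hz4 : z ≠ 1 := fun h => by
      rw [h, one_im] at h1
      linarith
    have h2 := (xi_zero (by linarith) hz4).1 hz3
    have h3 := hcon z h2 (by linarith)
    linarith

/-- local form, from zeta to a derivative -/
theorem loc_down (hne : S_NE) (hsad : S_SAD) (htay : S_TAY) (δ : ℝ) (hδ : 0 < δ) :
    ∃ κ W X0 : ℝ, 0 < κ ∧ 1 ≤ W ∧ 22 ≤ X0 ∧
    ∀ (σ : ℝ) (n : ℕ) (z : ℂ), 1 / 2 ≤ σ → X0 ≤ z.im →
      n * Real.log (Real.log z.im) ≤ κ * Real.log z.im → riemannZeta z = 0 → σ + δ ≤ z.re →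
        ∃ s : ℂ, iteratedDeriv n xi s = 0 ∧ σ ≤ s.re ∧ |s.im - z.im| ≤ W * Real.log z.im := by
  obtain ⟨κ, W, X0, hκ, H⟩ := fam_down hne hsad htay 1 0 δ le_rfl hδ
  refine ⟨κ / 2, 2 * max W 1, max X0 22, by positivity, ?_, le_max_right _ _, ?_⟩
  · have := le_max_right W 1
    linarith
  intro σ n z hσ hs hn hz hre
  have hs22 : 22 ≤ z.im := (le_max_right _ _).trans hs
  have habs : |z.im| = z.im := abs_of_nonneg (by linarith)
  have hcd : cd 1 (fun _ : Fin 1 => 0) z.im = 1 + z.im := by rw [cdz, habs]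
  have hlog2 : 2 ≤ Real.log z.im := by
    rw [Real.le_log_iff_exp_le (by linarith)]
    have h1 : Real.exp 2 = Real.exp 1 ^ 2 := by
      rw [← Real.exp_nat_mul]
      norm_num
    rw [h1]
    have h2 := Real.exp_one_lt_d9
    have h3 := Real.exp_pos 1
    nlinarith
  have hlog3 : Real.log (1 + z.im) ≤ 2 * Real.log z.im := by
    have h1 : 1 + z.im ≤ z.im ^ 2 := by nlinarith
    have := Real.log_le_log (by linarith) h1
    rwa [Real.log_pow, Nat.cast_ofNat] at this
  have hlog4 : Real.log z.im ≤ Real.log (1 + z.im) := Real.log_le_log (by linarith) (by linarith)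
  have hn0 : (0 : ℝ) ≤ n := Nat.cast_nonneg n
  have hz1 : z ≠ 1 := fun h => by
    rw [h, one_im] at hs22
    linarith
  have hxi : iteratedDeriv 0 xi z = 0 := by
    rw [iteratedDeriv_zero]
    exact (xi_zero (by linarith) hz1).2 hz
  by_contra hcon
  push Not at hcon
  refine H 1 1 (fun _ => 0) (fun _ _ => 1) xi xi_hw (fun _ => by simp) z.im (σ - 1 / 2) n ?_
    (by linarith) ?_ ?_ z (by linarith) (by simp) hxi
  · rw [hcd]
    have := (le_max_left X0 22).trans hs
    linarith
  · rw [hcd]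
    have h1 : Real.log (Real.log (1 + z.im)) ≤ 2 * Real.log (Real.log z.im) := by
      have h2 : Real.log (1 + z.im) ≤ Real.log z.im ^ 2 := by nlinarith
      have := Real.log_le_log (by linarith) h2
      rwa [Real.log_pow, Nat.cast_ofNat] at this
    calc (n : ℝ) * Real.log (Real.log (1 + z.im)) ≤ n * (2 * Real.log (Real.log z.im)) :=
          mul_le_mul_of_nonneg_left h1 hn0
      _ = 2 * (n * Real.log (Real.log z.im)) := by ring
      _ ≤ 2 * (κ / 2 * Real.log z.im) := by linarith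
      _ = κ * Real.log z.im := by ring
      _ ≤ _ := mul_le_mul_of_nonneg_left hlog4 hκ.le
  · intro s hs1 hs2 hs3
    have h3 := hcon s hs3 (by linarith)
    rw [hcd] at hs2
    have h4 : W * Real.log (1 + z.im) ≤ 2 * max W 1 * Real.log z.im := by
      calc W * Real.log (1 + z.im) ≤ max W 1 * Real.log (1 + z.im) :=
            mul_le_mul_of_nonneg_right (le_max_left _ _) (by linarith)
        _ ≤ max W 1 * (2 * Real.log z.im) := by
            refine mul_le_mul_of_nonneg_left hlog3 ?_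
            have := le_max_right W 1
            linarith
        _ = _ := by ring
    linarith

/-- the number of zeros of the `n`-th derivative is bounded in terms of the number of zeros of zeta -/
theorem cmp_up (hne : S_NE) (hsadu : S_SADU) (δ : ℝ) (hδ : 0 < δ) : ∃ κ K X0 : ℝ, 0 < κ ∧ 0 < K ∧
    22 ≤ X0 ∧ ∀ (U T σ : ℝ) (n : ℕ), X0 ≤ U → U ≤ T → 1 / 2 ≤ σ → n ≤ κ * Real.log U →
      (num (iteratedDeriv n xi) (σ + δ) U T : ℝ) ≤
        K * Real.log T * num riemannZeta σ (U - 21) (T + 21) := by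
  obtain ⟨κ, X0, hκ, hX0, H⟩ := loc_up hne hsadu δ hδ
  obtain ⟨K, T0, hK, hT0, HK⟩ := winz κ hκ.le
  refine ⟨κ, 42 * K, max X0 T0, hκ, by positivity, hX0.trans (le_max_left _ _), ?_⟩
  intro U T σ n hU hUT hσ hn
  have hU1 : X0 ≤ U := (le_max_left _ _).trans hU
  have hU2 : T0 ≤ U := (le_max_right _ _).trans hU
  have hlog : Real.log U ≤ Real.log T := Real.log_le_log (by linarith) hUT
  have hlog0 : 0 ≤ Real.log U := Real.log_nonneg (by linarith)
  have hzn : num riemannZeta σ (U - 21) (T + 21) = num (iteratedDeriv 0 xi) σ (U - 21) (T + 21) := by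
    rw [iteratedDeriv_zero, num_xi (by linarith) (by linarith)]
  have h1 := num_cmp (fin_n n (σ + δ) U T) (fin_n 0 σ (U - 21) (T + 21)) (w := 21)
    (K := K * Real.log T) (fun s hs => ord_n 0 hs.1) (by
      have : 0 ≤ Real.log T := hlog0.trans hlog
      positivity) (by norm_num) (fun y S hS => ?_) (fun s hs => ?_)
  · rw [hzn]
    refine h1.trans (le_of_eq ?_)
    ring
  · exact HK T n (hU2.trans hUT) (hn.trans (mul_le_mul_of_nonneg_left hlog hκ.le)) (σ + δ) U y S
      (by linarith) (by linarith) hS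
  · obtain ⟨s1, s2, s3, s4⟩ := hs
    obtain ⟨z, z1, z2, z3⟩ := H σ n s hσ (by linarith)
      (hn.trans (mul_le_mul_of_nonneg_left (Real.log_le_log (by linarith) s3.le) hκ.le)) s1 s2
    have h2 := abs_le.1 z3
    have hz1 : z ≠ 1 := fun h => by
      rw [h, one_im] at h2
      linarith
    refine ⟨z, ⟨?_, z2, by linarith, by linarith⟩, ?_⟩
    · rw [iteratedDeriv_zero]
      exact (xi_zero (by linarith) hz1).2 z1
    · rw [abs_sub_comm]
      exact z3

/-- the number of zeros of zeta is bounded in terms of the number of zeros of the `n`-th derivative -/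
theorem cmp_down (hne : S_NE) (hsad : S_SAD) (htay : S_TAY) (δ : ℝ) (hδ : 0 < δ) :
    ∃ κ W K X0 : ℝ, 0 < κ ∧ 1 ≤ W ∧ 0 < K ∧
    22 ≤ X0 ∧ ∀ (U T σ : ℝ) (n : ℕ), X0 ≤ U → U ≤ T → 1 / 2 ≤ σ →
      n * Real.log (Real.log T) ≤ κ * Real.log U →
      (num riemannZeta (σ + δ) U T : ℝ) ≤ K * Real.log T ^ 2 *
        num (iteratedDeriv n xi) σ (U - W * Real.log T) (T + W * Real.log T) := by
  obtain ⟨κ, W, X0, hκ, hW, hX0, H⟩ := loc_down hne hsad htay δ hδ
  obtain ⟨K, T0, hK, hT0, HK⟩ := winz 0 le_rfl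
  refine ⟨κ, W, 2 * W * K, max X0 T0, hκ, hW, by positivity, hX0.trans (le_max_left _ _), ?_⟩
  intro U T σ n hU hUT hσ hn
  have hU1 : X0 ≤ U := (le_max_left _ _).trans hU
  have hU2 : T0 ≤ U := (le_max_right _ _).trans hU
  have hn0 : (0 : ℝ) ≤ n := Nat.cast_nonneg n
  have hlog1 : 1 ≤ Real.log U := by
    rw [Real.le_log_iff_exp_le (by linarith)]
    linarith [Real.exp_one_lt_d9]
  have hlog : Real.log U ≤ Real.log T := Real.log_le_log (by linarith) hUT
  have hzn : num riemannZeta (σ + δ) U T = num (iteratedDeriv 0 xi) (σ + δ) U T := by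
    rw [iteratedDeriv_zero, num_xi (by linarith) (by linarith)]
  have h1 := num_cmp (fin_n 0 (σ + δ) U T) (fin_n n σ (U - W * Real.log T) (T + W * Real.log T))
    (w := W * Real.log T)
    (K := K * Real.log T) (fun s hs => ord_n n hs.1) (by
      have : 0 ≤ Real.log T := by linarith
      positivity) (by nlinarith) (fun y S hS => ?_) (fun s hs => ?_)
  · rw [hzn]
    refine h1.trans (le_of_eq ?_)
    ring
  · exact HK T 0 (hU2.trans hUT) (by simp) (σ + δ) U y S
      (by linarith) (by linarith) hS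
  · obtain ⟨s1, s2, s3, s4⟩ := hs
    have hs1 : s ≠ 1 := fun h => by
      rw [h, one_im] at s3
      linarith
    rw [iteratedDeriv_zero] at s1
    have l1 : Real.log U ≤ Real.log s.im := Real.log_le_log (by linarith) s3.le
    have l2 : Real.log s.im ≤ Real.log T := Real.log_le_log (by linarith) s4
    obtain ⟨z, z1, z2, z3⟩ := H σ n s hσ (by linarith) (by
      have l3 : Real.log (Real.log s.im) ≤ Real.log (Real.log T) := Real.log_le_log (by linarith) l2
      calc (n : ℝ) * Real.log (Real.log s.im) ≤ n * Real.log (Real.log T) :=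
            mul_le_mul_of_nonneg_left l3 hn0
        _ ≤ κ * Real.log U := hn
        _ ≤ _ := mul_le_mul_of_nonneg_left l1 hκ.le) ((xi_zero (by linarith) hs1).1 s1) s2
    have h4 : |z.im - s.im| ≤ W * Real.log T :=
      z3.trans (mul_le_mul_of_nonneg_left l2 (by linarith))
    have h2 := abs_le.1 h4
    refine ⟨z, ⟨z1, z2, by linarith, by linarith⟩, ?_⟩
    rw [abs_sub_comm]
    exact h4

end Pool.Agent.TH839.ZT
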