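import Pool.Agent.TH839.ZT.Up
import Pool.Agent.TH839.LD.Few

/-!
# Project ZT: counting zeros
-/

set_option autoImplicit false

open Complex MeasureTheory Filter Topology Set Metric
open scoped ComplexConjugate

namespace Pool.Agent.TH839.ZT

open Pool.Agent.W169.HF H353.E Pool.Agent.W355.UN Pool.Agent.TH839.UH Pool.Agent.TH839.LD
  Pool.Agent.W186.LH

variable {m : ℕ} {B : ℝ → ℝ} {N θ : ℝ} {μ : Fin m → ℂ} {X L : ℂ → ℂ}

/-- the number of zeros in a unit window -/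
theorem win_ul (h : UL m B N 1 μ X L) (n : ℕ) (y : ℝ) :
    Few X n 0 y (11 * hc N μ y + 197 * Kn m (B 1) n) := by
  intro S hS
  obtain ⟨-, hne, hup, -⟩ := prf h le_rfl n y
  have hh := hc_nonneg h.hN μ y
  obtain ⟨c, hc'⟩ : ∃ c : ℂ, c = 7 / 2 + (y : ℂ) * I := ⟨_, rfl⟩
  have hcre : c.re = 7 / 2 := by rw [hc']; simp
  have hcim : c.im = y := by rw [hc']; simp
  rw [← hc'] at hne hup
  have hP : 0 < ‖iteratedDeriv n X c‖ := norm_pos_iff.2 hne
  have hsph : ∀ u ∈ sphere c 11, ‖iteratedDeriv n X u‖ ≤ ‖iteratedDeriv n X c‖ *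
      Real.exp (11 * hc N μ y + 197 * Kn m (B 1) n) := by
    intro u hu
    rw [mem_sphere_iff_norm] at hu
    have h1 := hup (3 + (u - c))
    have e1 : 1 / 2 + (y : ℂ) * I + (3 + (u - c)) = u := by
      rw [hc']
      ring
    rw [e1] at h1
    refine h1.trans (mul_le_mul_of_nonneg_left (Real.exp_le_exp.2 ?_) hP.le)
    have h2 : ‖3 + (u - c)‖ ≤ 14 := by
      refine (norm_add_le _ _).trans ?_
      rw [hu, Complex.norm_ofNat]
      norm_num
    have h3 : max |(3 + (u - c)).re| 3 - 3 ≤ 11 := by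
      have := (Complex.abs_re_le_norm _).trans h2
      have h4 : max |(3 + (u - c)).re| 3 ≤ 14 := max_le this (by norm_num)
      linarith
    have h5 : 1 + ‖3 + (u - c)‖ ^ 2 ≤ 197 := by
      have := pow_le_pow_left₀ (norm_nonneg _) h2 2
      linarith
    have h6 := mul_le_mul_of_nonneg_left h3 hh
    have h7 := mul_le_mul_of_nonneg_left h5 (Kn_nonneg (m := m) (h.hB 1) n)
    linarith
  have hball : ∀ z ∈ S, z ∈ closedBall c 4 := by
    intro z hz
    obtain ⟨h1, h2, h3⟩ := hS z hz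
    have h4 : z.re ≤ 7 / 2 := by
      by_contra hcon
      push Not at hcon
      exact right_ne h n hcon.le h1
    rw [mem_closedBall, dist_eq_norm]
    have h5 : ‖z - c‖ ^ 2 ≤ 4 ^ 2 := by
      rw [Complex.sq_norm, Complex.normSq_apply, sub_re, sub_im, hcre, hcim]
      have h6 := abs_le.1 h3
      nlinarith
    exact (sq_le_sq₀ (norm_nonneg _) (by norm_num)).1 h5
  have hj := jc (iter_diff h n) (c := c) (r := 4) (R := 11) (by norm_num) (by norm_num) hsph hne S hball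
  obtain ⟨M, hM⟩ : ∃ M : ℕ, M = ∑ z ∈ S, analyticOrderNatAt (iteratedDeriv n X) z := ⟨_, rfl⟩
  have hMc : (∑ z ∈ S, (analyticOrderNatAt (iteratedDeriv n X) z : ℝ)) = M := by
    rw [hM]; push_cast; rfl
  rw [hMc]
  rw [← hM] at hj
  have h1 : Real.exp M ≤ (11 / 4) ^ M := by
    have h2 : Real.exp M = Real.exp 1 ^ M := by
      rw [← Real.exp_nat_mul, mul_one]
    rw [h2]
    refine pow_le_pow_left₀ (Real.exp_pos 1).le ?_ M
    have := Real.exp_one_lt_d9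
    linarith
  have h3 : ‖iteratedDeriv n X c‖ * Real.exp M ≤ ‖iteratedDeriv n X c‖ *
      Real.exp (11 * hc N μ y + 197 * Kn m (B 1) n) := by
    refine le_trans ?_ hj
    rw [mul_comm]
    exact mul_le_mul_of_nonneg_right h1 hP.le
  exact Real.exp_le_exp.1 (le_of_mul_le_mul_left h3 hP)

/-- zeros of the `n`-th derivative in a region -/
def reg (F : ℂ → ℂ) (σ U T : ℝ) : Set ℂ := {s | F s = 0 ∧ σ ≤ s.re ∧ U < s.im ∧ s.im ≤ T}

/-- the number of zeros -/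
noncomputable def num (F : ℂ → ℂ) (σ U T : ℝ) : ℕ := ∑ᶠ s ∈ reg F σ U T, analyticOrderNatAt F s

lemma reg_finite (h : UL m B N 1 μ X L) (n : ℕ) (σ U T : ℝ) :
    (reg (iteratedDeriv n X) σ U T).Finite := by
  have hK : IsCompact (Icc σ (7 / 2) ×ℂ Icc U T) := isCompact_Icc.reProdIm isCompact_Icc
  refine (zfin (iter_diff h n) (iter_ne h le_rfl n) hK).subset fun s hs => ?_
  obtain ⟨h1, h2, h3, h4⟩ := hs
  have h5 : s.re ≤ 7 / 2 := by
    by_contra hcon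
    push Not at hcon
    exact right_ne h n hcon.le h1
  exact ⟨⟨⟨h2, h5⟩, ⟨h3.le, h4⟩⟩, h1⟩

lemma num_eq {F : ℂ → ℂ} {σ U T : ℝ} (hf : (reg F σ U T).Finite) :
    (num F σ U T : ℝ) = ∑ s ∈ hf.toFinset, (analyticOrderNatAt F s : ℝ) := by
  unfold num
  rw [finsum_mem_eq_finite_toFinset_sum _ hf]
  push_cast
  rfl

lemma sum_le_num {F : ℂ → ℂ} {σ U T : ℝ} (hf : (reg F σ U T).Finite) (S : Finset ℂ)
    (hS : ∀ s ∈ S, s ∈ reg F σ U T) : ∑ s ∈ S, (analyticOrderNatAt F s : ℝ) ≤ num F σ U T := by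
  rw [num_eq hf]
  refine Finset.sum_le_sum_of_subset_of_nonneg (fun s hs => ?_) fun _ _ _ => Nat.cast_nonneg _
  rw [Set.Finite.mem_toFinset]
  exact hS s hs

/-- covering a window of half-length `w` by unit windows -/
lemma cover_win (o : ℂ → ℝ) {K : ℝ} (hK : 0 ≤ K) {w b : ℝ} (hw : 1 ≤ w) (S : Finset ℂ)
    (hS : ∀ s ∈ S, |s.im - b| ≤ w)
    (hwin : ∀ (y : ℝ) (S' : Finset ℂ), S' ⊆ S → (∀ s ∈ S', |s.im - y| ≤ 1) → ∑ s ∈ S', o s ≤ K) :
    ∑ s ∈ S, o s ≤ 2 * w * K := by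
  classical
  obtain ⟨k, hk⟩ : ∃ k : ℂ → ℕ, k = fun s => ⌊(s.im - b + w) / 2⌋₊ := ⟨_, rfl⟩
  have hfl : ∀ s ∈ S, (k s : ℝ) ≤ (s.im - b + w) / 2 ∧ (s.im - b + w) / 2 < k s + 1 := by
    intro s hs
    have h1 := abs_le.1 (hS s hs)
    rw [hk]
    exact ⟨Nat.floor_le (by linarith), Nat.lt_floor_add_one _⟩
  have hmap : ∀ s ∈ S, k s ∈ Finset.range (⌊w⌋₊ + 1) := by
    intro s hs
    have h1 := abs_le.1 (hS s hs)
    rw [Finset.mem_range, Nat.lt_succ_iff, hk]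
    apply Nat.floor_le_floor
    linarith
  rw [← Finset.sum_fiberwise_of_maps_to hmap]
  have h3 : ∀ j ∈ Finset.range (⌊w⌋₊ + 1), ∑ s ∈ S with k s = j, o s ≤ K := by
    intro j hj
    refine hwin (b - w + 2 * j + 1) _ (Finset.filter_subset _ _) fun s hs => ?_
    rw [Finset.mem_filter] at hs
    obtain ⟨hs1, hs2⟩ := hs
    obtain ⟨a1, a2⟩ := hfl s hs1
    rw [hs2] at a1 a2
    rw [abs_le]
    constructor <;> linarith
  calc _ ≤ ∑ j ∈ Finset.range (⌊w⌋₊ + 1), K := Finset.sum_le_sum h3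
    _ = (⌊w⌋₊ + 1) * K := by simp
    _ ≤ _ := by
      refine mul_le_mul_of_nonneg_right ?_ hK
      have := Nat.floor_le (show 0 ≤ w by linarith)
      linarith

/-- the trivial bound -/
lemma num_triv {F : ℂ → ℂ} {σ U T K : ℝ} (hf : (reg F σ U T).Finite) (hK : 0 ≤ K) (hUT : U + 2 ≤ T)
    (hwin : ∀ (y : ℝ) (S : Finset ℂ), (∀ s ∈ S, s ∈ reg F σ U T ∧ |s.im - y| ≤ 1) →
      ∑ s ∈ S, (analyticOrderNatAt F s : ℝ) ≤ K) : (num F σ U T : ℝ) ≤ (T - U) * K := by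
  rw [num_eq hf]
  have h1 := cover_win (fun s => (analyticOrderNatAt F s : ℝ)) hK (w := (T - U) / 2) (b := (T + U) / 2)
    (by linarith) hf.toFinset (fun s hs => by
      rw [Set.Finite.mem_toFinset] at hs
      obtain ⟨-, -, h3, h4⟩ := hs
      rw [abs_le]
      constructor <;> linarith) (fun y S' hS' hy => hwin y S' fun s hs => ⟨by
        have := hS' hs
        rwa [Set.Finite.mem_toFinset] at this, hy s hs⟩)
  calc _ ≤ _ := h1
    _ = _ := by ring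

/-- comparison of two counting functions -/
lemma num_cmp {F G : ℂ → ℂ} {σ σ' U T U' T' K w : ℝ} (hf : (reg F σ U T).Finite)
    (hg : (reg G σ' U' T').Finite) (hord : ∀ s ∈ reg G σ' U' T', 1 ≤ analyticOrderNatAt G s)
    (hK : 0 ≤ K) (hw : 1 ≤ w)
    (hwin : ∀ (y : ℝ) (S : Finset ℂ), (∀ s ∈ S, s ∈ reg F σ U T ∧ |s.im - y| ≤ 1) →
      ∑ s ∈ S, (analyticOrderNatAt F s : ℝ) ≤ K)
    (hcov : ∀ s ∈ reg F σ U T, ∃ z ∈ reg G σ' U' T', |s.im - z.im| ≤ w) :
    (num F σ U T : ℝ) ≤ 2 * w * K * num G σ' U' T' := by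
  classical
  rw [num_eq hf]
  choose! z hz1 hz2 using hcov
  have hmap : ∀ s ∈ hf.toFinset, z s ∈ hg.toFinset := by
    intro s hs
    rw [Set.Finite.mem_toFinset] at hs ⊢
    exact hz1 s hs
  rw [← Finset.sum_fiberwise_of_maps_to hmap]
  have h3 : ∀ b ∈ hg.toFinset, ∑ s ∈ hf.toFinset with z s = b, (analyticOrderNatAt F s : ℝ) ≤
      2 * w * K := by
    intro b hb
    refine cover_win (fun s => (analyticOrderNatAt F s : ℝ)) hK hw (b := b.im) _ (fun s hs => ?_)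
      fun y S' hS' hy => hwin y S' fun s hs => ⟨?_, hy s hs⟩
    · rw [Finset.mem_filter, Set.Finite.mem_toFinset] at hs
      rw [← hs.2]
      exact hz2 s hs.1
    · have := hS' hs
      rw [Finset.mem_filter, Set.Finite.mem_toFinset] at this
      exact this.1
  refine (Finset.sum_le_sum h3).trans ?_
  rw [Finset.sum_const, nsmul_eq_mul, mul_comm]
  refine mul_le_mul_of_nonneg_left ?_ (by positivity)
  have h4 : (num G σ' U' T' : ℝ) = ∑ s ∈ hg.toFinset, (analyticOrderNatAt G s : ℝ) := num_eq hg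
  rw [h4]
  calc (hg.toFinset.card : ℝ) = ∑ s ∈ hg.toFinset, (1 : ℝ) := by simp
    _ ≤ _ := Finset.sum_le_sum fun s hs => by
      rw [Set.Finite.mem_toFinset] at hs
      exact_mod_cast hord s hs

lemma num_mono {F : ℂ → ℂ} {σ σ' U U' T T' : ℝ} (hf : (reg F σ' U' T').Finite) (h1 : σ' ≤ σ)
    (h2 : U' ≤ U) (h3 : T ≤ T') : (num F σ U T : ℝ) ≤ num F σ' U' T' := by
  have hsub : reg F σ U T ⊆ reg F σ' U' T' := fun s hs =>
    ⟨hs.1, h1.trans hs.2.1, lt_of_le_of_lt h2 hs.2.2.1, hs.2.2.2.trans h3⟩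
  rw [num_eq (hf.subset hsub)]
  refine sum_le_num hf _ fun s hs => ?_
  rw [Set.Finite.mem_toFinset] at hs
  exact hsub hs

lemma num_split {F : ℂ → ℂ} {σ U V T : ℝ} (hf : (reg F σ U T).Finite) (h1 : U ≤ V) (h2 : V ≤ T) :
    (num F σ U T : ℝ) ≤ num F σ U V + num F σ V T := by
  classical
  have hs1 : reg F σ U V ⊆ reg F σ U T := fun s hs => ⟨hs.1, hs.2.1, hs.2.2.1, hs.2.2.2.trans h2⟩
  have hs2 : reg F σ V T ⊆ reg F σ U T := fun s hs =>
    ⟨hs.1, hs.2.1, lt_of_le_of_lt h1 hs.2.2.1, hs.2.2.2⟩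
  rw [num_eq hf, num_eq (hf.subset hs1), num_eq (hf.subset hs2)]
  have hsub : hf.toFinset ⊆ (hf.subset hs1).toFinset ∪ (hf.subset hs2).toFinset := by
    intro s hs
    rw [Set.Finite.mem_toFinset] at hs
    rw [Finset.mem_union, Set.Finite.mem_toFinset, Set.Finite.mem_toFinset]
    rcases le_or_gt s.im V with h3 | h3
    · exact Or.inl ⟨hs.1, hs.2.1, hs.2.2.1, h3⟩
    · exact Or.inr ⟨hs.1, hs.2.1, h3, hs.2.2.2⟩
  have h4 : (0 : ℝ) ≤ ∑ s ∈ (hf.subset hs1).toFinset ∩ (hf.subset hs2).toFinset,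
      (analyticOrderNatAt F s : ℝ) := Finset.sum_nonneg fun _ _ => Nat.cast_nonneg _
  have h5 := Finset.sum_union_inter (s₁ := (hf.subset hs1).toFinset) (s₂ := (hf.subset hs2).toFinset)
    (f := fun s => (analyticOrderNatAt F s : ℝ))
  have h6 := Finset.sum_le_sum_of_subset_of_nonneg hsub
    (f := fun s => (analyticOrderNatAt F s : ℝ)) fun _ _ _ => Nat.cast_nonneg _
  linarith

end Pool.Agent.TH839.ZT
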