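import Pool.Agent.TH839.ZT.Cmp2

/-!
# Project ZT: density estimates
-/

set_option autoImplicit false

open Complex Filter Topology Set
open scoped ComplexConjugate

namespace Pool.Agent.TH839.ZT

/-- a real variable lemma on exponents -/
lemma tr {f : ℝ → ℝ} (hf : ContinuousOn f (Icc (1 / 2) 1)) (hf0 : ∀ σ ∈ Icc (1 / 2 : ℝ) 1, 0 ≤ f σ)
    (hf1 : 1 ≤ f (1 / 2)) {ε : ℝ} (hε : 0 < ε) : ∃ δ a : ℝ, 0 < δ ∧ 0 < a ∧ a ≤ 1 ∧
      ∀ K1 K2 C : ℝ, 0 < K1 → 0 < K2 → 0 < C → ∃ C' T₀ : ℝ, 0 < C' ∧ 1 ≤ T₀ ∧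
        ∀ T σ M : ℝ, T₀ ≤ T → 1 / 2 ≤ σ → σ ≤ 1 → M ≤ K2 * (T * Real.log T) →
          (1 / 2 + δ ≤ σ → ∃ Y : ℝ, M ≤ K2 * (T ^ a * Real.log T) + K1 * Real.log T ^ 2 * Y ∧
            Y ≤ C * (2 * T) ^ (f (σ - δ) + ε / 4)) → M ≤ C' * T ^ (f σ + ε) := by
  have hun : UniformContinuousOn f (Icc (1 / 2) 1) :=
    isCompact_Icc.uniformContinuousOn_of_continuous hf
  obtain ⟨δ₀, hδ₀, hun⟩ := (Metric.uniformContinuousOn_iff.1 hun) (ε / 4) (by positivity)
  obtain ⟨δ, hδ⟩ : ∃ δ : ℝ, δ = min (δ₀ / 2) (1 / 4) := ⟨_, rfl⟩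
  have hδ0 : 0 < δ := by rw [hδ]; exact lt_min (by positivity) (by norm_num)
  have hδδ₀ : δ < δ₀ := by
    have : δ ≤ δ₀ / 2 := by rw [hδ]; exact min_le_left _ _
    linarith
  obtain ⟨a, ha⟩ : ∃ a : ℝ, a = min (ε / 8) 1 := ⟨_, rfl⟩
  have ha0 : 0 < a := by rw [ha]; positivity
  have haε : a ≤ ε / 8 := by rw [ha]; exact min_le_left _ _
  have ha1 : a ≤ 1 := by rw [ha]; exact min_le_right _ _
  obtain ⟨B, hB⟩ : ∃ B : ℝ, ∀ σ ∈ Icc (1 / 2 : ℝ) 1, f σ ≤ B := by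
    obtain ⟨B, hB⟩ := isCompact_Icc.bddAbove_image hf
    exact ⟨B, fun σ hσ => hB (mem_image_of_mem f hσ)⟩
  refine ⟨δ, a, hδ0, ha0, ha1, ?_⟩
  intro K1 K2 C hK1 hK2 hC
  have hev : ∀ᶠ T : ℝ in atTop, Real.log T ≤ T ^ a := by
    have h3 := (isLittleO_log_rpow_atTop ha0).bound (show (0 : ℝ) < 1 by norm_num)
    filter_upwards [h3, eventually_ge_atTop 1] with x hx hx1
    rw [Real.norm_eq_abs, Real.norm_eq_abs, abs_of_nonneg (Real.log_nonneg hx1),
      abs_of_nonneg (by positivity), one_mul] at hx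
    exact hx
  obtain ⟨T₁, hT₁⟩ := eventually_atTop.1 hev
  refine ⟨K2 + K1 * (C * 2 ^ (B + ε)), max T₁ 1, by positivity, le_max_right _ _, ?_⟩
  intro T σ M hT hσ1 hσ2 hM1 hM2
  have hT1 : 1 ≤ T := (le_max_right _ _).trans hT
  have hT0 : 0 < T := by linarith
  have hlog := hT₁ T ((le_max_left _ _).trans hT)
  have hlog0 : 0 ≤ Real.log T := Real.log_nonneg hT1
  have hfσ := hf0 σ ⟨hσ1, hσ2⟩
  have hpos : 0 ≤ T ^ (f σ + ε) := by positivity
  rcases le_or_gt (1 / 2 + δ) σ with hσ | hσ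
  · obtain ⟨Y, hY1, hY2⟩ := hM2 hσ
    have hmem : σ - δ ∈ Icc (1 / 2 : ℝ) 1 := ⟨by linarith, by linarith⟩
    have hcl := hun σ ⟨hσ1, hσ2⟩ (σ - δ) hmem (by
      rw [Real.dist_eq, sub_sub_cancel, abs_of_pos hδ0]; exact hδδ₀)
    rw [Real.dist_eq] at hcl
    have hcl' := abs_lt.1 hcl
    have hf2 := hf0 _ hmem
    have hf3 := hB _ hmem
    have h1 : (2 * T) ^ (f (σ - δ) + ε / 4) ≤ 2 ^ (B + ε) * T ^ (f (σ - δ) + ε / 4) := by
      rw [Real.mul_rpow (by norm_num) hT0.le]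
      refine mul_le_mul_of_nonneg_right ?_ (by positivity)
      exact Real.rpow_le_rpow_of_exponent_le (by norm_num) (by linarith)
    have h2 : Real.log T ^ 2 ≤ T ^ (ε / 4) := by
      calc Real.log T ^ 2 ≤ (T ^ a) ^ 2 := pow_le_pow_left₀ hlog0 hlog 2
        _ = T ^ (a * 2) := by
          rw [Real.rpow_mul hT0.le]
          norm_num
        _ ≤ _ := Real.rpow_le_rpow_of_exponent_le hT1 (by linarith)
    have h3 : T ^ a * Real.log T ≤ T ^ (f σ + ε) := by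
      calc T ^ a * Real.log T ≤ T ^ a * T ^ a := mul_le_mul_of_nonneg_left hlog (by positivity)
        _ = T ^ (a + a) := by rw [Real.rpow_add hT0]
        _ ≤ _ := Real.rpow_le_rpow_of_exponent_le hT1 (by linarith)
    have h4 : K1 * Real.log T ^ 2 * Y ≤ K1 * (C * 2 ^ (B + ε)) * T ^ (f σ + ε) := by
      calc K1 * Real.log T ^ 2 * Y ≤
            K1 * Real.log T ^ 2 * (C * (2 ^ (B + ε) * T ^ (f (σ - δ) + ε / 4))) :=
            mul_le_mul_of_nonneg_left (hY2.trans (mul_le_mul_of_nonneg_left h1 hC.le)) (by positivity)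
        _ ≤ K1 * T ^ (ε / 4) * (C * (2 ^ (B + ε) * T ^ (f (σ - δ) + ε / 4))) := by
            gcongr
        _ = K1 * (C * 2 ^ (B + ε)) * T ^ (ε / 4 + (f (σ - δ) + ε / 4)) := by
            rw [Real.rpow_add hT0 (ε / 4)]
            ring
        _ ≤ _ := by
            refine mul_le_mul_of_nonneg_left ?_ (by positivity)
            exact Real.rpow_le_rpow_of_exponent_le hT1 (by linarith)
    calc M ≤ _ := hY1
      _ ≤ K2 * T ^ (f σ + ε) + K1 * (C * 2 ^ (B + ε)) * T ^ (f σ + ε) :=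
        add_le_add (mul_le_mul_of_nonneg_left h3 hK2.le) h4
      _ = _ := by ring
  · have hcl := hun σ ⟨hσ1, hσ2⟩ (1 / 2) ⟨le_rfl, by norm_num⟩ (by
      rw [Real.dist_eq, abs_of_nonneg (by linarith)]; linarith)
    rw [Real.dist_eq] at hcl
    have hcl' := abs_lt.1 hcl
    calc M ≤ K2 * (T * Real.log T) := hM1
      _ ≤ K2 * (T ^ (1 : ℝ) * T ^ a) := by
          rw [Real.rpow_one]
          gcongr
      _ = K2 * T ^ (1 + a) := by rw [Real.rpow_add hT0]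
      _ ≤ K2 * T ^ (f σ + ε) := by
          apply mul_le_mul_of_nonneg_left _ hK2.le
          exact Real.rpow_le_rpow_of_exponent_le hT1 (by linarith)
      _ ≤ _ := by
          apply mul_le_mul_of_nonneg_right _ hpos
          have : 0 < K1 * (C * 2 ^ (B + ε)) := by positivity
          linarith

lemma ev_rpow {a : ℝ} (ha : 0 < a) (C : ℝ) : ∃ T₀ : ℝ, ∀ T : ℝ, T₀ ≤ T → C ≤ T ^ a :=
  eventually_atTop.1 ((tendsto_rpow_atTop ha).eventually_ge_atTop C)

lemma ev_log {a : ℝ} (ha : 0 < a) (W : ℝ) : ∃ T₀ : ℝ, ∀ T : ℝ, T₀ ≤ T → W * Real.log T ≤ T ^ a := by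
  have h3 := (isLittleO_log_rpow_atTop ha).bound (show (0 : ℝ) < 1 / (|W| + 1) by positivity)
  refine eventually_atTop.1 ?_
  filter_upwards [h3, eventually_ge_atTop 1] with x hx hx1
  have h0 : 0 ≤ x ^ a := by positivity
  rw [Real.norm_eq_abs, Real.norm_eq_abs, abs_of_nonneg (Real.log_nonneg hx1),
    abs_of_nonneg h0] at hx
  calc W * Real.log x ≤ (|W| + 1) * Real.log x := by
        refine mul_le_mul_of_nonneg_right ?_ (Real.log_nonneg hx1)
        linarith [le_abs_self W]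
    _ ≤ (|W| + 1) * (1 / (|W| + 1) * x ^ a) := mul_le_mul_of_nonneg_left hx (by positivity)
    _ = x ^ a := by
        field_simp

/-- the density estimate with the exponent `f` for the zeros of zeta -/
def Dz (f : ℝ → ℝ) : Prop := ∀ ε : ℝ, 0 < ε → ∃ C : ℝ, 0 < C ∧ ∃ T₀ : ℝ, ∀ T : ℝ, T₀ ≤ T →
  ∀ σ : ℝ, 1 / 2 ≤ σ → σ ≤ 1 → (num riemannZeta σ 0 T : ℝ) ≤ C * T ^ (f σ + ε)

/-- for all derivatives of order at most `κ log T` -/
def Dall (f : ℝ → ℝ) : Prop := ∀ ε : ℝ, 0 < ε → ∃ κ : ℝ, 0 < κ ∧ ∃ C : ℝ, 0 < C ∧ ∃ T₀ : ℝ,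
  ∀ T : ℝ, T₀ ≤ T → ∀ n : ℕ, n ≤ κ * Real.log T → ∀ σ : ℝ, 1 / 2 ≤ σ → σ ≤ 1 →
    (num (iteratedDeriv n xi) σ 0 T : ℝ) ≤ C * T ^ (f σ + ε)

/-- for the derivative of order `ν T` -/
def Dnu (f : ℝ → ℝ) (ν : ℝ → ℕ) : Prop := ∀ ε : ℝ, 0 < ε → ∃ C : ℝ, 0 < C ∧ ∃ T₀ : ℝ,
  ∀ T : ℝ, T₀ ≤ T → ∀ σ : ℝ, 1 / 2 ≤ σ → σ ≤ 1 →
    (num (iteratedDeriv (ν T) xi) σ 0 T : ℝ) ≤ C * T ^ (f σ + ε)

theorem all_of_z (hne : S_NE) (hsadu : S_SADU) {f : ℝ → ℝ} (hf : ContinuousOn f (Icc (1 / 2) 1))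
    (hf0 : ∀ σ ∈ Icc (1 / 2 : ℝ) 1, 0 ≤ f σ) (hf1 : 1 ≤ f (1 / 2)) (h : Dz f) : Dall f := by
  intro ε hε
  obtain ⟨δ, a, hδ, ha0, ha1, HT⟩ := tr hf hf0 hf1 hε
  obtain ⟨κ, K, X0, hκ, hK, hX0, HC⟩ := cmp_up hne hsadu δ hδ
  obtain ⟨K2, T2, hK2, hT2, HW⟩ := winz κ hκ.le
  obtain ⟨C3, hC3, T3, h3⟩ := h (ε / 4) (by positivity)
  obtain ⟨C', T₀, hC', hT₀, HT⟩ := HT K K2 C3 hK hK2 hC3
  obtain ⟨T4, hT4⟩ := ev_rpow ha0 (max X0 T2)
  refine ⟨κ * a, by positivity, C', hC', max (max T₀ T3) (max (max T2 T4) 21), ?_⟩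
  intro T hT n hn σ hσ1 hσ2
  have e1 : T₀ ≤ T := ((le_max_left _ _).trans (le_max_left _ _)).trans hT
  have e2 : T3 ≤ T := ((le_max_right _ _).trans (le_max_left _ _)).trans hT
  have e3 : T2 ≤ T := ((le_max_left _ _).trans ((le_max_left _ _).trans (le_max_right _ _))).trans hT
  have e4 : T4 ≤ T := ((le_max_right _ _).trans ((le_max_left _ _).trans (le_max_right _ _))).trans hT
  have e5 : 21 ≤ T := ((le_max_right _ _).trans (le_max_right _ _)).trans hT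
  have hT0 : 0 < T := by linarith
  have hU := hT4 T e4
  obtain ⟨U, hUe⟩ : ∃ U : ℝ, U = T ^ a := ⟨_, rfl⟩
  rw [← hUe] at hU
  have hU1 : X0 ≤ U := (le_max_left _ _).trans hU
  have hU2 : T2 ≤ U := (le_max_right _ _).trans hU
  have hUT : U ≤ T := by
    rw [hUe]
    calc T ^ a ≤ T ^ (1 : ℝ) := Real.rpow_le_rpow_of_exponent_le (by linarith) ha1
      _ = T := Real.rpow_one T
  have hlogU : Real.log U = a * Real.log T := by rw [hUe, Real.log_rpow hT0]
  have hlogT : 1 ≤ Real.log T := by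
    rw [Real.le_log_iff_exp_le hT0]
    linarith [Real.exp_one_lt_d9]
  have hnU : (n : ℝ) ≤ κ * Real.log U := by
    rw [hlogU]
    refine hn.trans (le_of_eq ?_)
    ring
  have hlUT : Real.log U ≤ Real.log T := Real.log_le_log (by linarith) hUT
  have hnT : (n : ℝ) ≤ κ * Real.log T := hnU.trans (mul_le_mul_of_nonneg_left hlUT hκ.le)
  refine HT T σ _ e1 hσ1 hσ2 ?_ fun hσ => ⟨num riemannZeta (σ - δ) 0 (2 * T), ?_, ?_⟩
  · have h5 := num_triv (fin_n n σ 0 T) (K := K2 * Real.log T) (by positivity) (by linarith)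
      fun y S hS => HW T n e3 hnT σ 0 y S hσ1 le_rfl hS
    refine h5.trans (le_of_eq ?_)
    ring
  · have h5 := num_split (fin_n n σ 0 T) (V := U) (by linarith) hUT
    have h6 := num_triv (fin_n n σ 0 U) (K := K2 * Real.log U)
      (by
        have : 0 ≤ Real.log U := Real.log_nonneg (by linarith)
        positivity) (by linarith)
      fun y S hS => HW U n hU2 hnU σ 0 y S hσ1 le_rfl hS
    have h7 := HC U T (σ - δ) n hU1 hUT (by linarith) hnU
    rw [sub_add_cancel] at h7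
    have hfz : (reg riemannZeta (σ - δ) 0 (2 * T)).Finite := by
      rw [← reg_xi (by linarith) le_rfl]
      have := fin_n 0 (σ - δ) 0 (2 * T)
      rwa [iteratedDeriv_zero] at this
    have h8 := num_mono (U := U - 21) (T := T + 21) hfz le_rfl (by linarith) (by linarith)
    have h9 : K * Real.log T * num riemannZeta (σ - δ) (U - 21) (T + 21) ≤
        K * Real.log T ^ 2 * num riemannZeta (σ - δ) 0 (2 * T) := by
      calc _ ≤ K * Real.log T * num riemannZeta (σ - δ) 0 (2 * T) :=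
            mul_le_mul_of_nonneg_left h8 (by positivity)
        _ ≤ _ := by
            refine mul_le_mul_of_nonneg_right ?_ (Nat.cast_nonneg _)
            refine mul_le_mul_of_nonneg_left ?_ hK.le
            nlinarith
    have h10 : (U - 0) * (K2 * Real.log U) ≤ K2 * (T ^ a * Real.log T) := by
      rw [← hUe]
      calc (U - 0) * (K2 * Real.log U) = K2 * (U * Real.log U) := by ring
        _ ≤ _ := by
            refine mul_le_mul_of_nonneg_left ?_ hK2.le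
            exact mul_le_mul_of_nonneg_left hlUT (by linarith)
    linarith
  · exact h3 (2 * T) (by linarith) (σ - δ) (by linarith) (by linarith)

theorem z_of_nu (hne : S_NE) (hsad : S_SAD) (htay : S_TAY) {f : ℝ → ℝ}
    (hf : ContinuousOn f (Icc (1 / 2) 1))
    (hf0 : ∀ σ ∈ Icc (1 / 2 : ℝ) 1, 0 ≤ f σ) (hf1 : 1 ≤ f (1 / 2)) {ν : ℝ → ℕ}
    (hν : ∀ κ : ℝ, 0 < κ → ∃ T₀ : ℝ, ∀ T : ℝ, T₀ ≤ T →
      ν T * Real.log (Real.log T) ≤ κ * Real.log T) (h : Dnu f ν) : Dz f := by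
  intro ε hε
  obtain ⟨δ, a, hδ, ha0, ha1, HT⟩ := tr hf hf0 hf1 hε
  obtain ⟨κ, W, K, X0, hκ, hW, hK, hX0, HC⟩ := cmp_down hne hsad htay δ hδ
  obtain ⟨K2, T2, hK2, hT2, HW⟩ := winz 0 le_rfl
  obtain ⟨C3, hC3, T3, h3⟩ := h (ε / 4) (by positivity)
  obtain ⟨C', T₀, hC', hT₀, HT⟩ := HT K K2 C3 hK hK2 hC3
  obtain ⟨T4, hT4⟩ := ev_rpow ha0 (max X0 T2)
  obtain ⟨T5, hT5⟩ := ev_log ha0 W
  obtain ⟨T6, hT6⟩ := hν (κ * a / 2) (by positivity)
  refine ⟨C', hC', max (max (max T₀ T3) (max T5 T6)) (max (max T2 T4) 21), ?_⟩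
  intro T hT σ hσ1 hσ2
  have e1 : T₀ ≤ T :=
    ((le_max_left _ _).trans ((le_max_left _ _).trans (le_max_left _ _))).trans hT
  have e2 : T3 ≤ T :=
    ((le_max_right _ _).trans ((le_max_left _ _).trans (le_max_left _ _))).trans hT
  have e6 : T5 ≤ T :=
    ((le_max_left _ _).trans ((le_max_right _ _).trans (le_max_left _ _))).trans hT
  have e7 : T6 ≤ T :=
    ((le_max_right _ _).trans ((le_max_right _ _).trans (le_max_left _ _))).trans hT
  have e3 : T2 ≤ T := ((le_max_left _ _).trans ((le_max_left _ _).trans (le_max_right _ _))).trans hT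
  have e4 : T4 ≤ T := ((le_max_right _ _).trans ((le_max_left _ _).trans (le_max_right _ _))).trans hT
  have e5 : 21 ≤ T := ((le_max_right _ _).trans (le_max_right _ _)).trans hT
  have hT0 : 0 < T := by linarith
  have hU := hT4 T e4
  have hWU := hT5 T e6
  obtain ⟨U, hUe⟩ : ∃ U : ℝ, U = T ^ a := ⟨_, rfl⟩
  rw [← hUe] at hU hWU
  have hU1 : X0 ≤ U := (le_max_left _ _).trans hU
  have hU2 : T2 ≤ U := (le_max_right _ _).trans hU
  have hUT : U ≤ T := by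
    rw [hUe]
    calc T ^ a ≤ T ^ (1 : ℝ) := Real.rpow_le_rpow_of_exponent_le (by linarith) ha1
      _ = T := Real.rpow_one T
  have hlogU : Real.log U = a * Real.log T := by rw [hUe, Real.log_rpow hT0]
  have hlogT : 1 ≤ Real.log T := by
    rw [Real.le_log_iff_exp_le hT0]
    linarith [Real.exp_one_lt_d9]
  have hlUT : Real.log U ≤ Real.log T := Real.log_le_log (by linarith) hUT
  obtain ⟨n, hn⟩ : ∃ n : ℕ, n = ν (2 * T) := ⟨_, rfl⟩
  have hn0 : (0 : ℝ) ≤ n := Nat.cast_nonneg n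
  have hl2 : Real.log (2 * T) ≤ 2 * Real.log T := by
    have h1 : 2 * T ≤ T ^ 2 := by nlinarith
    have := Real.log_le_log (by linarith) h1
    rwa [Real.log_pow, Nat.cast_ofNat] at this
  have hl3 : Real.log T ≤ Real.log (2 * T) := Real.log_le_log hT0 (by linarith)
  have hcond : n * Real.log (Real.log T) ≤ κ * Real.log U := by
    have h1 := hT6 (2 * T) (by linarith)
    rw [← hn] at h1
    have h2 : Real.log (Real.log T) ≤ Real.log (Real.log (2 * T)) :=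
      Real.log_le_log (by linarith) hl3
    calc (n : ℝ) * Real.log (Real.log T) ≤ n * Real.log (Real.log (2 * T)) :=
          mul_le_mul_of_nonneg_left h2 hn0
      _ ≤ κ * a / 2 * Real.log (2 * T) := h1
      _ ≤ κ * a / 2 * (2 * Real.log T) := mul_le_mul_of_nonneg_left hl2 (by positivity)
      _ = _ := by
        rw [hlogU]
        ring
  have hfz : ∀ σ U T : ℝ, 0 < σ → 0 ≤ U → (reg riemannZeta σ U T).Finite := by
    intro σ U T hσ hU
    rw [← reg_xi hσ hU]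
    have := fin_n 0 σ U T
    rwa [iteratedDeriv_zero] at this
  have hwin0 : ∀ V : ℝ, T2 ≤ V → ∀ (y : ℝ) (S : Finset ℂ),
      (∀ s ∈ S, s ∈ reg xi σ 0 V ∧ |s.im - y| ≤ 1) →
        ∑ s ∈ S, (analyticOrderNatAt xi s : ℝ) ≤ K2 * Real.log V := by
    intro V hV y S hS
    have h1 := HW V 0 hV (by simp) σ 0 y S hσ1 le_rfl
    simp only [iteratedDeriv_zero] at h1
    exact h1 hS
  have hfx : ∀ V : ℝ, (reg xi σ 0 V).Finite := by
    intro V
    have := fin_n 0 σ 0 V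
    rwa [iteratedDeriv_zero] at this
  refine HT T σ _ e1 hσ1 hσ2 ?_ fun hσ => ⟨num (iteratedDeriv n xi) (σ - δ) 0 (2 * T), ?_, ?_⟩
  · rw [← num_xi (by linarith) le_rfl]
    have h5 := num_triv (hfx T) (K := K2 * Real.log T) (by positivity) (by linarith) (hwin0 T e3)
    refine h5.trans (le_of_eq ?_)
    ring
  · have h5 := num_split (hfz σ 0 T (by linarith) le_rfl) (V := U) (by linarith) hUT
    have h6 := num_triv (hfx U) (K := K2 * Real.log U)
      (by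
        have : 0 ≤ Real.log U := Real.log_nonneg (by linarith)
        positivity) (by linarith) (hwin0 U hU2)
    rw [num_xi (by linarith) le_rfl] at h6
    have h7 := HC U T (σ - δ) n hU1 hUT (by linarith) hcond
    rw [sub_add_cancel] at h7
    have h8 := num_mono (U := U - W * Real.log T) (T := T + W * Real.log T)
      (fin_n n (σ - δ) 0 (2 * T)) le_rfl (by linarith) (by linarith)
    have h9 : K * Real.log T ^ 2 * num (iteratedDeriv n xi) (σ - δ) (U - W * Real.log T)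
        (T + W * Real.log T) ≤ K * Real.log T ^ 2 * num (iteratedDeriv n xi) (σ - δ) 0 (2 * T) :=
      mul_le_mul_of_nonneg_left h8 (by positivity)
    have h10 : (U - 0) * (K2 * Real.log U) ≤ K2 * (T ^ a * Real.log T) := by
      rw [← hUe]
      calc (U - 0) * (K2 * Real.log U) = K2 * (U * Real.log U) := by ring
        _ ≤ _ := by
            refine mul_le_mul_of_nonneg_left ?_ hK2.le
            exact mul_le_mul_of_nonneg_left hlUT (by linarith)
    linarith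
  · have := h3 (2 * T) (by linarith) (σ - δ) (by linarith) (by linarith)
    rw [← hn] at this
    exact this

theorem nu_of_all {f : ℝ → ℝ} {ν : ℝ → ℕ}
    (hν : ∀ κ : ℝ, 0 < κ → ∃ T₀ : ℝ, ∀ T : ℝ, T₀ ≤ T →
      ν T * Real.log (Real.log T) ≤ κ * Real.log T) (h : Dall f) : Dnu f ν := by
  intro ε hε
  obtain ⟨κ, hκ, C, hC, T₀, H⟩ := h ε hε
  obtain ⟨T1, hT1⟩ := hν κ hκ
  refine ⟨C, hC, max (max T₀ T1) (Real.exp (Real.exp 1)), ?_⟩
  intro T hT σ hσ1 hσ2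
  have e1 : T₀ ≤ T := ((le_max_left _ _).trans (le_max_left _ _)).trans hT
  have e2 : T1 ≤ T := ((le_max_right _ _).trans (le_max_left _ _)).trans hT
  have e3 : Real.exp (Real.exp 1) ≤ T := (le_max_right _ _).trans hT
  refine H T e1 (ν T) ?_ σ hσ1 hσ2
  have hT0 : 0 < T := lt_of_lt_of_le (Real.exp_pos _) e3
  have h1 : Real.exp 1 ≤ Real.log T := by
    rw [Real.le_log_iff_exp_le hT0]
    exact e3
  have h2 : 1 ≤ Real.log (Real.log T) := by
    rw [Real.le_log_iff_exp_le (lt_of_lt_of_le (Real.exp_pos _) h1)]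
    exact h1
  have h3 : (ν T : ℝ) * 1 ≤ ν T * Real.log (Real.log T) :=
    mul_le_mul_of_nonneg_left h2 (Nat.cast_nonneg _)
  have := hT1 T e2
  linarith

end Pool.Agent.TH839.ZT
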