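import Pool.Agent.TH839.ZT.Up

/-!
# Project ZT: from a derivative to the function
-/

set_option autoImplicit false

open Complex MeasureTheory Filter Topology Set Metric
open scoped ComplexConjugate

namespace Pool.Agent.TH839.ZT

open Pool.Agent.W169.HF H353.E Pool.Agent.W355.UN Pool.Agent.TH839.UH Pool.Agent.TH839.LD

variable {m : ℕ} {B : ℝ → ℝ} {N θ : ℝ} {μ : Fin m → ℂ} {X L : ℂ → ℂ}

/-- the lower bound for the remainder in Taylor's formula against the upper bound for the terms -/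
theorem taylor_cmp (htay : S_TAY) {X : ℂ → ℂ} (hX : Differentiable ℂ X) {n : ℕ} (hn : 1 ≤ n)
    {s e : ℂ} (he : ‖e‖ = 1) {R ρ h Bd lo : ℝ} (hR : 0 ≤ R) (hR1 : R ≤ 1) (hRρ : R < ρ) (hBd : 0 ≤ Bd)
    {g : ℂ → ℂ} (h0 : X s = 0)
    (hg : ∀ w ∈ ball (0 : ℂ) ρ, iteratedDeriv n X (s + w) = iteratedDeriv n X s * cexp (h * w + g w))
    (hlo : lo ≤ ‖∫ v in (0 : ℝ)..R, (v : ℂ) ^ (n - 1) / ((n - 1).factorial : ℂ) *
      cexp (-(h * (v * e)) + g (-(v * e)))‖)
    (hup : ∀ k < n, ‖iteratedDeriv k X (s - R * e)‖ ≤ Bd) :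
    ‖iteratedDeriv n X s‖ * lo ≤ 3 * Bd := by
  have hT := htay X n s e R hX hn hR
  rw [h0] at hT
  obtain ⟨S, hS⟩ : ∃ S : ℂ, S = ∑ k ∈ Finset.range n,
    iteratedDeriv k X (s - R * e) * (R * e) ^ k / (k.factorial : ℂ) := ⟨_, rfl⟩
  rw [← hS] at hT
  have hSb : ‖S‖ ≤ 3 * Bd := by
    rw [hS]
    have h1 : ∀ k ∈ Finset.range n, ‖iteratedDeriv k X (s - R * e) * (R * e) ^ k /
        (k.factorial : ℂ)‖ ≤ Bd * (R ^ k / (k.factorial : ℝ)) := by
      intro k hk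
      rw [norm_div, norm_mul, norm_pow, norm_mul, he, mul_one, Complex.norm_real, Real.norm_eq_abs,
        abs_of_nonneg hR, Complex.norm_natCast, mul_div_assoc]
      exact mul_le_mul_of_nonneg_right (hup k (Finset.mem_range.1 hk)) (by positivity)
    refine (norm_sum_le _ _).trans ((Finset.sum_le_sum h1).trans ?_)
    rw [← Finset.mul_sum]
    have h2 := Real.sum_le_exp_of_nonneg hR n
    have h3 : Real.exp R ≤ 3 := by
      have h4 := Real.exp_le_exp.2 hR1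
      have := Real.exp_one_lt_d9
      linarith
    calc _ ≤ Bd * 3 := mul_le_mul_of_nonneg_left (h2.trans h3) hBd
      _ = _ := by ring
  have hint : ∫ v in (0 : ℝ)..R, iteratedDeriv n X (s - v * e) * (v * e) ^ (n - 1) /
      ((n - 1).factorial : ℂ) * e = (iteratedDeriv n X s * e ^ n) *
        ∫ v in (0 : ℝ)..R, (v : ℂ) ^ (n - 1) / ((n - 1).factorial : ℂ) *
          cexp (-(h * (v * e)) + g (-(v * e))) := by
    rw [← intervalIntegral.integral_const_mul]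
    apply intervalIntegral.integral_congr
    intro v hv
    rw [uIcc_of_le hR] at hv
    have hw : -(v * e) ∈ ball (0 : ℂ) ρ := by
      rw [mem_ball_zero_iff, norm_neg, norm_mul, he, mul_one, Complex.norm_real, Real.norm_eq_abs,
        abs_of_nonneg hv.1]
      linarith [hv.2]
    have h1 := hg _ hw
    have e1 : s + -(v * e) = s - v * e := by ring
    rw [e1] at h1
    have e2 : e ^ n = e ^ (n - 1) * e := by
      rw [← pow_succ]
      congr 1
      omega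
    have e3 : (h : ℂ) * -(v * e) = -(h * (v * e)) := by ring
    simp only
    rw [h1, e2, e3, mul_pow]
    ring
  rw [hint] at hT
  have h5 : S = -(iteratedDeriv n X s * e ^ n * ∫ v in (0 : ℝ)..R, (v : ℂ) ^ (n - 1) /
    ((n - 1).factorial : ℂ) * cexp (-(h * (v * e)) + g (-(v * e)))) :=
    eq_neg_of_add_eq_zero_left hT.symm
  rw [h5, norm_neg, norm_mul, norm_mul, norm_pow, he, one_pow, mul_one] at hSb
  exact (mul_le_mul_of_nonneg_left hlo (norm_nonneg _)).trans hSb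

/-- from a derivative to the function -/
theorem down_ul (hne : S_NE) (hsad : S_SAD) (htay : S_TAY) (m : ℕ) (b : ℝ) (hb : 0 ≤ b)
    (Dc : ℝ → ℝ) (δ : ℝ) (hδ : 0 < δ) (hδ1 : δ ≤ 1) :
    ∃ κ h0 : ℝ, 0 < κ ∧ ∀ (B : ℝ → ℝ) (N : ℝ) (μ : Fin m → ℂ) (X L : ℂ → ℂ),
      UL m B N 1 μ X L → B 1 = b → Dec Dc N μ X → ∀ (n : ℕ) (η T : ℝ), 0 ≤ η → h0 ≤ hc N μ T →
        n * Real.log (hc N μ T) ≤ κ * hc N μ T →
        (∀ s : ℂ, 1 / 2 + η ≤ s.re → |s.im - T| ≤ 62 * hc N μ T → iteratedDeriv n X s ≠ 0) →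
          ∀ s : ℂ, 1 / 2 + η + δ ≤ s.re → |s.im - T| ≤ 1 → X s ≠ 0 := by
  obtain ⟨ε0, hε0, HS⟩ := hsad
  obtain ⟨κ1, hs0, hκ1, HS⟩ := HS (δ / 2) (by positivity) (by linarith)
  obtain ⟨ε, hε⟩ : ∃ ε : ℝ, ε = min ε0 (δ / 100) := ⟨_, rfl⟩
  have hεp : 0 < ε := by rw [hε]; positivity
  have hεε0 : ε ≤ ε0 := by rw [hε]; exact min_le_left _ _
  have hεδ : ε ≤ δ / 100 := by rw [hε]; exact min_le_right _ _
  obtain ⟨κ2, hκ2, HN⟩ := ne_ul hne (δ / 4) ε (by positivity) (by linarith) hεp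
  obtain ⟨D, hD⟩ : ∃ D : ℝ, D = Dc 2 := ⟨_, rfl⟩
  have hm0 : (0 : ℝ) ≤ m := Nat.cast_nonneg m
  obtain ⟨τ, hτ, t1, t2, t3, t4, t5, t6⟩ : ∃ τ : ℝ, 0 < τ ∧ 1601 * (3888 * τ) ≤ κ2 / 4 ∧
      8 * m * τ ≤ 1 / 4 ∧ 3 * τ ≤ 1 / 8 ∧ 4 * (3888 * τ) ≤ ε / 8 ∧ 6 * τ ≤ δ / 128 ∧
      τ ≤ κ1 / 2 := by
    obtain ⟨τ, hτ⟩ : ∃ τ : ℝ, τ = min (min (κ2 / (4 * 1601 * 3888)) (1 / (32 * (m + 1))))
      (min (min (1 / 24) (ε / (32 * 3888))) (min (δ / 768) (κ1 / 2))) := ⟨_, rfl⟩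
    have e1 : τ ≤ κ2 / (4 * 1601 * 3888) := by
      rw [hτ]; exact (min_le_left _ _).trans (min_le_left _ _)
    have e2 : τ ≤ 1 / (32 * (m + 1)) := by
      rw [hτ]; exact (min_le_left _ _).trans (min_le_right _ _)
    have e3 : τ ≤ 1 / 24 := by
      rw [hτ]; exact (min_le_right _ _).trans ((min_le_left _ _).trans (min_le_left _ _))
    have e4 : τ ≤ ε / (32 * 3888) := by
      rw [hτ]; exact (min_le_right _ _).trans ((min_le_left _ _).trans (min_le_right _ _))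
    have e5 : τ ≤ δ / 768 := by
      rw [hτ]; exact (min_le_right _ _).trans ((min_le_right _ _).trans (min_le_left _ _))
    have e6 : τ ≤ κ1 / 2 := by
      rw [hτ]; exact (min_le_right _ _).trans ((min_le_right _ _).trans (min_le_right _ _))
    have e0 : 0 < τ := by rw [hτ]; positivity
    refine ⟨τ, e0, by linarith, ?_, by linarith, by linarith, by linarith, e6⟩
    rw [le_div_iff₀ (by positivity)] at e2
    nlinarith only [e2, e0, hm0]
  obtain ⟨C0, hC0⟩ : ∃ C0 : ℝ, C0 = 2 + 4 * D + 11 * Kn m b 0 + 3 * m := ⟨_, rfl⟩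
  have E : ∀ C k : ℝ, 0 < k → ∀ᶠ h : ℝ in atTop, C ≤ k * h := fun C k hk =>
    (tendsto_id.const_mul_atTop hk).eventually_ge_atTop C
  obtain ⟨h0, H0⟩ := eventually_atTop.1 ((E 24 1 one_pos).and ((E (Real.exp (1 / τ)) 1 one_pos).and
    ((E (m * 2) (1 / 4) (by norm_num)).and ((E D (1 / 4) (by norm_num)).and
    ((E hs0 (1 / 2) (by norm_num)).and ((E (1601 * Kn m b 0) (κ2 / 4) (by positivity)).and
    ((E (m * (31 + b)) (1 / 8) (by norm_num)).and
    ((E (4 * Kn m b 0) (ε / 8) (by positivity)).and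
    (E (C0 + 1) (δ / 64) (by positivity))))))))))
  refine ⟨min 1 (δ / 128), h0, by positivity, ?_⟩
  intro B N μ X L h hBb hdec n η T hη0 hh0 hn hzf s hs1 hs2 hXs
  obtain ⟨h', hh'⟩ : ∃ h' : ℝ, h' = hc N μ T := ⟨_, rfl⟩
  rw [← hh'] at hh0 hn hzf
  obtain ⟨c1, c2, c3, c4, c5, c6, c7, c8, c9⟩ := H0 h' hh0
  rw [one_mul] at c1 c2
  have hh2 : 0 < h' := by linarith
  have hn0 : (0 : ℝ) ≤ n := Nat.cast_nonneg n
  have hKn0 := Kn_nonneg (m := m) hb 0
  have hδh : 0 < δ * h' := by positivity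
  have hεh : 0 < ε * h' := by positivity
  have hκ1' : min 1 (δ / 128) ≤ 1 := min_le_left _ _
  have hκ2' : min 1 (δ / 128) ≤ δ / 128 := min_le_right _ _
  have hn' : (n : ℝ) * Real.log h' ≤ 1 * h' := hn.trans (mul_le_mul_of_nonneg_right hκ1' hh2.le)
  have hn'' : (n : ℝ) * Real.log h' ≤ δ / 128 * h' :=
    hn.trans (mul_le_mul_of_nonneg_right hκ2' hh2.le)
  -- n is small
  have hnτ : (n : ℝ) ≤ τ * h' := by
    have h1 : 1 / τ ≤ Real.log h' := by
      rw [Real.le_log_iff_exp_le hh2]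
      exact c2
    have h2 : (n : ℝ) * (1 / τ) ≤ h' := by
      calc (n : ℝ) * (1 / τ) ≤ n * Real.log h' := mul_le_mul_of_nonneg_left h1 hn0
        _ ≤ 1 * h' := hn'
        _ = h' := one_mul _
    rw [mul_one_div, div_le_iff₀ hτ] at h2
    linarith
  have n1 : 1601 * (3888 * (n : ℝ)) ≤ κ2 / 4 * h' := by
    calc 1601 * (3888 * (n : ℝ)) ≤ 1601 * (3888 * (τ * h')) := by linarith
      _ = 1601 * (3888 * τ) * h' := by ring
      _ ≤ _ := mul_le_mul_of_nonneg_right t1 hh2.le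
  have n2 : 8 * (n : ℝ) * m ≤ 1 / 4 * h' := by
    calc 8 * (n : ℝ) * m ≤ 8 * (τ * h') * m := by
          refine mul_le_mul_of_nonneg_right (by linarith) hm0
      _ = 8 * m * τ * h' := by ring
      _ ≤ _ := mul_le_mul_of_nonneg_right t2 hh2.le
  have n3 : 3 * (n : ℝ) ≤ 1 / 8 * h' := by
    calc 3 * (n : ℝ) ≤ 3 * (τ * h') := by linarith
      _ = 3 * τ * h' := by ring
      _ ≤ _ := mul_le_mul_of_nonneg_right t3 hh2.le
  have n4 : 4 * (3888 * (n : ℝ)) ≤ ε / 8 * h' := by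
    calc 4 * (3888 * (n : ℝ)) ≤ 4 * (3888 * (τ * h')) := by linarith
      _ = 4 * (3888 * τ) * h' := by ring
      _ ≤ _ := mul_le_mul_of_nonneg_right t4 hh2.le
  have n5 : 6 * (n : ℝ) ≤ δ / 128 * h' := by
    calc 6 * (n : ℝ) ≤ 6 * (τ * h') := by linarith
      _ = 6 * τ * h' := by ring
      _ ≤ _ := mul_le_mul_of_nonneg_right t5 hh2.le
  have n6 : (n : ℝ) ≤ κ1 / 2 * h' := hnτ.trans (mul_le_mul_of_nonneg_right t6 hh2.le)
  -- the case n = 0
  rcases Nat.eq_zero_or_pos n with hnz | hnpos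
  · have := hzf s (by linarith) (by linarith)
    rw [hnz, iteratedDeriv_zero] at this
    exact this hXs
  have hsre : s.re ≤ 2 := by
    by_contra hcon
    exact h.Xne (s := s) (by linarith) hXs
  obtain ⟨σ, hσ, hσT⟩ : ∃ σ : ℝ, |σ| = 1 ∧ 0 ≤ σ * T := by
    rcases le_total 0 T with h1 | h1
    · exact ⟨1, by norm_num, by linarith⟩
    · exact ⟨-1, by norm_num, by linarith⟩
  obtain ⟨hD0, hdec⟩ := hdec 2 (by norm_num)
  rw [← hD] at hD0 hdec
  -- the two-sided bounds along the vertical line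
  have hNE : ∀ y : ℝ, |y - T| ≤ 2 + 60 * h' → h' / 2 ≤ hc N μ y →
      ∀ u : ℂ, η + δ / 4 ≤ u.re → u.re ≤ 4 → |u.im| ≤ 1 →
          ‖iteratedDeriv n X (7 / 2 + (y : ℂ) * I)‖ *
            Real.exp (hc N μ y * (u.re - 3) - ε * hc N μ y) ≤
              ‖iteratedDeriv n X (1 / 2 + (y : ℂ) * I + u)‖ ∧
          ‖iteratedDeriv n X (1 / 2 + (y : ℂ) * I + u)‖ ≤
            ‖iteratedDeriv n X (7 / 2 + (y : ℂ) * I)‖ *
              Real.exp (hc N μ y * (u.re - 3) + ε * hc N μ y) ∧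
          ‖deriv (iteratedDeriv n X) (1 / 2 + (y : ℂ) * I + u) /
            iteratedDeriv n X (1 / 2 + (y : ℂ) * I + u) - hc N μ y‖ ≤ ε * hc N μ y := by
    intro y hy1 hy2
    refine HN m B N μ X L h n y η hη0 (by linarith) (by linarith) ?_ ?_
    · rw [hBb]
      have hKe : Kn m b n = Kn m b 0 + 3888 * n := by
        unfold Kn
        push_cast
        ring
      have := mul_le_mul_of_nonneg_left hy2 hκ2.le
      rw [hKe]
      linarith
    · intro z hz1 hz2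
      refine hzf z hz1 ?_
      have e1 : z.im - T = (z.im - y) + (y - T) := by ring
      rw [e1]
      exact (abs_add_le _ _).trans (by linarith)
  -- at the point
  obtain ⟨a1, a2⟩ := hc_near h.hN μ (T := T) (T1 := s.im) (R := 1) hs2
  obtain ⟨e0, he0⟩ : ∃ e0 : ℝ, e0 = hc N μ s.im := ⟨_, rfl⟩
  rw [← hh', ← he0] at a1 a2
  obtain ⟨x1, hx1⟩ : ∃ x1 : ℝ, x1 = s.re - 1 / 2 := ⟨_, rfl⟩
  have hps : s = 1 / 2 + (s.im : ℂ) * I + (x1 : ℂ) := by rw [hx1]; exact point s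
  have hN1 := hNE s.im (by linarith) (by rw [← he0]; linarith)
  rw [← he0] at hN1
  have hmem : ∀ w ∈ ball (0 : ℂ) (δ / 2), η + δ / 4 ≤ ((x1 : ℂ) + w).re ∧
      ((x1 : ℂ) + w).re ≤ 4 ∧ |((x1 : ℂ) + w).im| ≤ 1 := by
    intro w hw
    rw [mem_ball_zero_iff] at hw
    have h1 := abs_le.1 ((Complex.abs_re_le_norm w).trans hw.le)
    have h2 := (Complex.abs_im_le_norm w).trans hw.le
    rw [add_re, add_im, ofReal_re, ofReal_im, zero_add]
    exact ⟨by linarith, by linarith, by linarith⟩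
  have hpt : ∀ w : ℂ, 1 / 2 + (s.im : ℂ) * I + ((x1 : ℂ) + w) = s + w := fun w => by
    rw [← add_assoc, ← hps]
  obtain ⟨-, hq0, -, -⟩ := prf h le_rfl n s.im
  have hq0' : 0 < ‖iteratedDeriv n X (7 / 2 + (s.im : ℂ) * I)‖ := norm_pos_iff.2 hq0
  have hFne : ∀ w ∈ ball (0 : ℂ) (δ / 2), iteratedDeriv n X (s + w) ≠ 0 := by
    intro w hw
    obtain ⟨d1, d2, d3⟩ := hmem w hw
    obtain ⟨d4, -, -⟩ := hN1 _ d1 d2 d3
    rw [hpt] at d4
    intro h0
    rw [h0, norm_zero] at d4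
    have d7 : 0 < ‖iteratedDeriv n X (7 / 2 + (s.im : ℂ) * I)‖ * Real.exp (e0 *
      (((x1 : ℂ) + w).re - 3) - ε * e0) := by positivity
    linarith
  obtain ⟨g, hg1, hg2, hg3, hg4⟩ := logrep (h := e0) (by positivity) (iter_diff h n) hFne
  obtain ⟨e, he1, he2, he3⟩ := HS e0 n g (by linarith) hnpos (by
      have : κ1 / 2 * h' ≤ κ1 * e0 := by
        have e1 : h' / 2 ≤ e0 := by linarith
        have := mul_le_mul_of_nonneg_left e1 hκ1.le
        linarith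
      linarith) hg1 hg2 (by
      intro w hw
      obtain ⟨d1, d2, d3⟩ := hmem w hw
      obtain ⟨-, -, d4⟩ := hN1 _ d1 d2 d3
      rw [hpt] at d4
      rw [hg3 w hw]
      exact d4.trans (mul_le_mul_of_nonneg_right hεε0 (by linarith)))
  -- the path
  obtain ⟨s1, hs1'⟩ : ∃ s1 : ℂ, s1 = s - ((δ / 4 : ℝ) : ℂ) * e := ⟨_, rfl⟩
  obtain ⟨T1, hT1⟩ : ∃ T1 : ℝ, T1 = s1.im := ⟨_, rfl⟩
  obtain ⟨x0, hx0⟩ : ∃ x0 : ℝ, x0 = s1.re - 1 / 2 := ⟨_, rfl⟩
  have hps1 : s1 = 1 / 2 + (T1 : ℂ) * I + (x0 : ℂ) := by rw [hx0, hT1]; exact point s1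
  have hre_e : 7 / 8 ≤ e.re := by
    have h1 := (abs_le.1 ((Complex.abs_re_le_norm (e - 1)).trans he2)).1
    rw [sub_re, one_re] at h1
    linarith
  have hre_e1 : e.re ≤ 1 := (Complex.re_le_norm e).trans he1.le
  have him_e : |e.im| ≤ 1 := (Complex.abs_im_le_norm e).trans he1.le
  have hx01 : x1 - x0 = δ / 4 * e.re := by
    rw [hx1, hx0, hs1', sub_re, re_ofReal_mul]
    ring
  have hδ4 : 0 ≤ δ / 4 := by positivity
  have hx0l : η + δ / 4 ≤ x0 := by
    have q := mul_le_mul_of_nonneg_left hre_e1 hδ4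
    linarith only [q, hx01, hx1, hs1, hδ]
  have hx0u : x0 ≤ 3 / 2 := by
    have q := mul_le_mul_of_nonneg_left hre_e hδ4
    linarith only [q, hx01, hx1, hsre, hδ]
  have hx0p : 0 < x0 := by linarith
  have hTT1 : |T1 - s.im| ≤ 1 := by
    have e1 : T1 - s.im = -(δ / 4 * e.im) := by
      rw [hT1, hs1', sub_im, im_ofReal_mul]
      ring
    rw [e1, abs_neg, abs_mul, abs_of_nonneg hδ4]
    have q := mul_le_mul_of_nonneg_left him_e hδ4
    linarith only [q, hδ1]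
  have hTT2 : |T1 - T| ≤ 2 := by
    have e1 : T1 - T = (T1 - s.im) + (s.im - T) := by ring
    rw [e1]
    exact (abs_add_le _ _).trans (by linarith)
  obtain ⟨h1, hh1⟩ : ∃ h1 : ℝ, h1 = hc N μ T1 := ⟨_, rfl⟩
  obtain ⟨b1, b2⟩ := hc_near h.hN μ hTT2
  rw [← hh', ← hh1] at b1 b2
  obtain ⟨b3, b4⟩ := hc_near h.hN μ hTT1
  rw [← he0, ← hh1] at b3 b4
  have hσT1 : -2 ≤ σ * T1 := by
    have e1 : σ * T1 = σ * T + σ * (T1 - T) := by ring
    have e2 : |σ * (T1 - T)| ≤ 2 := by rw [abs_mul, hσ, one_mul]; exact hTT2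
    have e3 := (abs_le.1 e2).1
    linarith
  have hdm := hdec σ T1 hσ hσT1
  obtain ⟨Bd, hBd⟩ : ∃ Bd : ℝ, Bd = D * Real.exp (3 * D) * ‖X (7 / 2 + T1 * I)‖ *
      (16 * h1) ^ n * Real.exp ((x0 - 3 + 2 * ε) * h1) := ⟨_, rfl⟩
  have hh1p : 0 < h1 := by linarith only [b2, c3, hh2]
  have hBd0 : 0 ≤ Bd := by rw [hBd]; positivity
  have hpath : ∀ k < n, ‖iteratedDeriv k X (s - ((δ / 4 : ℝ) : ℂ) * e)‖ ≤ Bd := by
    intro k hk
    rw [← hs1', hps1, hBd]
    refine pathk Pool.Agent.TH126.LD.vint h (n := n) (V0 := 60 * h') hk.le hσ hD0 hx0p hx0u hεp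
      (by linarith) hh1 (fun v hv => (hdm v hv).1) (fun v hv => by rw [hh1]; exact (hdm v hv).2)
      (by rw [hBb]; linarith) (by linarith) (by
        rw [hBb]
        have hKe : Kn m b n = Kn m b 0 + 3888 * n := by
          unfold Kn
          push_cast
          ring
        rw [hKe]
        have e1 : 1 / 2 * h' ≤ h1 := by linarith
        have e2 := mul_le_mul_of_nonneg_left e1 hεp.le
        linarith) (by linarith) ?_
    intro v hv hvV
    have hy := (hdm v hv).2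
    rw [← hh1] at hy
    have hy2 : h' / 2 ≤ hc N μ (T1 + σ * v) := by linarith
    have hy3 : |(T1 + σ * v) - T| ≤ 2 + 60 * h' := by
      have e1 : (T1 + σ * v) - T = (T1 - T) + σ * v := by ring
      have e2 : |σ * v| ≤ 60 * h' := by
        rw [abs_mul, hσ, one_mul, abs_of_nonneg hv]
        exact hvV
      rw [e1]
      exact (abs_add_le _ _).trans (by linarith)
    obtain ⟨-, d2, -⟩ := hNE (T1 + σ * v) hy3 hy2 (x0 : ℂ) (by rw [ofReal_re]; exact hx0l)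
      (by rw [ofReal_re]; linarith) (by rw [ofReal_im, abs_zero]; norm_num)
    rw [ofReal_re] at d2
    exact d2
  have hcmp := taylor_cmp htay h.slow.1 hnpos he1 (R := δ / 4) (ρ := δ / 2) (h := e0) (Bd := Bd)
    (lo := ((4 * e0) ^ n)⁻¹) (by positivity) (by linarith) (by linarith) hBd0 hXs hg4 (by
      have : δ / 2 / 2 = δ / 4 := by ring
      rw [this] at he3
      exact he3) hpath
  -- the lower bound
  obtain ⟨lo1, -, -⟩ := hN1 (x1 : ℂ) (by rw [ofReal_re]; linarith) (by rw [ofReal_re]; linarith)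
    (by rw [ofReal_im, abs_zero]; norm_num)
  rw [← hps, ofReal_re] at lo1
  have lo2 := ratio_lo h le_rfl n s.im (by rw [← he0, hBb]; linarith)
  rw [← he0, hBb] at lo2
  obtain ⟨Q, hQ⟩ : ∃ Q : ℝ, Q = ‖X (7 / 2 + (s.im : ℂ) * I)‖ := ⟨_, rfl⟩
  have hQ0 : 0 < Q := by rw [hQ]; exact norm_pos_iff.2 (prf h le_rfl 0 s.im).1
  rw [← hQ] at lo2
  have hhe : 0 < e0 := by linarith
  have lo3 : Q * (e0 / 2) ^ n * Real.exp (e0 * (x1 - 3) - ε * e0) ≤ ‖iteratedDeriv n X s‖ := by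
    refine le_trans ?_ lo1
    refine mul_le_mul_of_nonneg_right ?_ (Real.exp_pos _).le
    refine le_trans ?_ lo2
    refine mul_le_mul_of_nonneg_left (pow_le_pow_left₀ (by linarith) (by linarith) n) hQ0.le
  have p1 := near h le_rfl s.im (R := 1) (u := 3 + ((T1 - s.im : ℝ) : ℂ) * I) (by simp)
    (by simpa using hTT1)
  have e1 : (1 / 2 + (s.im : ℂ) * I + (3 + ((T1 - s.im : ℝ) : ℂ) * I) : ℂ) = 7 / 2 + (T1 : ℂ) * I := by
    push_cast
    ring
  rw [e1, ← hQ, hBb] at p1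
  have hKn11 : Kn m b 0 * (10 + 1 ^ 2) = 11 * Kn m b 0 := by ring
  rw [hKn11] at p1
  -- put together
  have f1 : Q * (1 / 8) ^ n * Real.exp (e0 * (x1 - 3) - ε * e0) ≤ 3 * Bd := by
    refine le_trans (le_of_eq ?_) ((mul_le_mul_of_nonneg_right lo3
      (by positivity : 0 ≤ ((4 * e0) ^ n)⁻¹)).trans hcmp)
    have e2 : (e0 / 2) ^ n * ((4 * e0) ^ n)⁻¹ = (1 / 8 : ℝ) ^ n := by
      rw [← inv_pow, ← mul_pow]
      congr 1
      field_simp
      norm_num
    calc _ = Q * Real.exp (e0 * (x1 - 3) - ε * e0) * (1 / 8) ^ n := by ring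
      _ = _ := by rw [← e2]; ring
  have f2 : Bd ≤ Real.exp (4 * D) * (Q * Real.exp (11 * Kn m b 0)) * (16 * h1) ^ n *
      Real.exp ((x0 - 3 + 2 * ε) * e0 + 3 * m) := by
    have p4 : D ≤ Real.exp D := by linarith [Real.add_one_le_exp D]
    have p5 : (x0 - 3 + 2 * ε) * h1 ≤ (x0 - 3 + 2 * ε) * e0 + 3 * m := by
      have q1 : (3 - x0 - 2 * ε) * (e0 - m * 1) ≤ (3 - x0 - 2 * ε) * h1 :=
        mul_le_mul_of_nonneg_left b4 (by linarith)
      have q2 : (3 - x0 - 2 * ε) * m ≤ 3 * m := mul_le_mul_of_nonneg_right (by linarith) hm0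
      have q3 : (3 - x0 - 2 * ε) * (e0 - m * 1) = (3 - x0 - 2 * ε) * e0 - (3 - x0 - 2 * ε) * m := by
        ring
      have q4 : (x0 - 3 + 2 * ε) * h1 = -((3 - x0 - 2 * ε) * h1) := by ring
      have q5 : (x0 - 3 + 2 * ε) * e0 = -((3 - x0 - 2 * ε) * e0) := by ring
      linarith
    have p6 : D * Real.exp (3 * D) ≤ Real.exp (4 * D) := by
      have e2 : Real.exp (4 * D) = Real.exp D * Real.exp (3 * D) := by
        rw [← Real.exp_add]
        congr 1
        ring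
      rw [e2]
      exact mul_le_mul_of_nonneg_right p4 (Real.exp_pos _).le
    have h16 : 0 ≤ 16 * h1 := by linarith
    have p7 := Real.exp_le_exp.2 p5
    rw [hBd]
    gcongr
  have f3 : (3 : ℝ) ≤ Real.exp 2 := by
    have := Real.add_one_le_exp (2 : ℝ)
    linarith
  have f4 : Real.exp (e0 * (x1 - x0 - 3 * ε)) ≤ Real.exp C0 * (256 * h') ^ n := by
    have g1 : Q * (1 / 8) ^ n * Real.exp (e0 * (x1 - 3) - ε * e0) ≤ Real.exp 2 *
        (Real.exp (4 * D) * (Q * Real.exp (11 * Kn m b 0)) * (16 * h1) ^ n *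
          Real.exp ((x0 - 3 + 2 * ε) * e0 + 3 * m)) := by
      refine f1.trans ?_
      exact mul_le_mul f3 f2 hBd0 (Real.exp_pos _).le
    have g2 : Real.exp (e0 * (x1 - 3) - ε * e0) = Real.exp (e0 * (x1 - x0 - 3 * ε)) *
        Real.exp ((x0 - 3 + 2 * ε) * e0) := by
      rw [← Real.exp_add]
      congr 1
      ring
    have g3 : Real.exp 2 * (Real.exp (4 * D) * (Q * Real.exp (11 * Kn m b 0)) * (16 * h1) ^ n *
          Real.exp ((x0 - 3 + 2 * ε) * e0 + 3 * m)) = Q * Real.exp ((x0 - 3 + 2 * ε) * e0) *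
          (Real.exp C0 * (16 * h1) ^ n) := by
      rw [hC0, Real.exp_add _ (3 * (m : ℝ)), Real.exp_add (2 + 4 * D + 11 * Kn m b 0),
        Real.exp_add (2 + 4 * D), Real.exp_add 2]
      ring
    rw [g3, g2] at g1
    have g4 : Q * Real.exp ((x0 - 3 + 2 * ε) * e0) * ((1 / 8) ^ n *
        Real.exp (e0 * (x1 - x0 - 3 * ε))) ≤ Q * Real.exp ((x0 - 3 + 2 * ε) * e0) *
          (Real.exp C0 * (16 * h1) ^ n) := by
      refine le_trans (le_of_eq ?_) g1
      ring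
    have g5 := le_of_mul_le_mul_left g4 (by positivity)
    have g6 : (8 : ℝ) ^ n * ((1 / 8) ^ n * Real.exp (e0 * (x1 - x0 - 3 * ε))) ≤
        8 ^ n * (Real.exp C0 * (16 * h1) ^ n) := mul_le_mul_of_nonneg_left g5 (by positivity)
    have g7 : (8 : ℝ) ^ n * ((1 / 8) ^ n * Real.exp (e0 * (x1 - x0 - 3 * ε))) =
        Real.exp (e0 * (x1 - x0 - 3 * ε)) := by
      rw [← mul_assoc, ← mul_pow]
      norm_num
    have g8 : (8 : ℝ) ^ n * (Real.exp C0 * (16 * h1) ^ n) = Real.exp C0 * (128 * h1) ^ n := by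
      have : (128 * h1) ^ n = 8 ^ n * (16 * h1) ^ n := by
        rw [← mul_pow]
        congr 1
        ring
      rw [this]
      ring
    rw [g7, g8] at g6
    refine g6.trans (mul_le_mul_of_nonneg_left (pow_le_pow_left₀ (by linarith) (by linarith) n)
      (Real.exp_pos _).le)
  have f5 : (256 * h') ^ n ≤ Real.exp (δ / 128 * h' + δ / 128 * h') := by
    have f2 : (256 * h') ^ n = Real.exp (n * Real.log h' + n * Real.log 256) := by
      rw [← mul_add, ← Real.log_mul hh2.ne' (by norm_num), mul_comm (n : ℝ), Real.exp_mul,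
        Real.exp_log (by positivity), Real.rpow_natCast, mul_comm]
    rw [f2]
    apply Real.exp_le_exp.2
    have f3 : Real.log 256 ≤ 6 := by
      rw [Real.log_le_iff_le_exp (by norm_num)]
      have h9 : (2.7 : ℝ) ^ 6 ≤ Real.exp 1 ^ 6 := by
        have := Real.exp_one_gt_d9
        gcongr
        linarith
      rw [← Real.exp_nat_mul] at h9
      norm_num at h9 ⊢
      linarith
    have f4 : n * Real.log 256 ≤ n * 6 := mul_le_mul_of_nonneg_left f3 hn0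
    linarith
  have f6 : Real.exp (δ / 16 * h') ≤ Real.exp (C0 + (δ / 128 * h' + δ / 128 * h')) := by
    rw [Real.exp_add C0]
    refine le_trans (Real.exp_le_exp.2 ?_) (f4.trans (mul_le_mul_of_nonneg_left f5 (Real.exp_pos _).le))
    have g1 : δ / 8 ≤ x1 - x0 - 3 * ε := by
      have q := mul_le_mul_of_nonneg_left hre_e hδ4
      linarith only [q, hx01, hεδ, hδ]
    have g2 : h' / 2 * (δ / 8) ≤ e0 * (x1 - x0 - 3 * ε) :=
      mul_le_mul (by linarith) g1 (by positivity) hhe.le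
    linarith
  have f7 := Real.exp_le_exp.1 f6
  linarith

end Pool.Agent.TH839.ZT
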