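import Pool.Agent.TH839.ZT.Stm

/-!
# Project ZT: logarithms on discs
-/

set_option autoImplicit false

open Complex Filter Topology Set Metric
open scoped ComplexConjugate

namespace Pool.Agent.TH839.ZT

/-- a function without zeros on a disc is `F s0 * exp (h w + g w)` -/
theorem logrep {F : ℂ → ℂ} {s0 : ℂ} {ρ h : ℝ} (hρ : 0 < ρ) (hF : Differentiable ℂ F)
    (hne : ∀ w ∈ ball (0 : ℂ) ρ, F (s0 + w) ≠ 0) : ∃ g : ℂ → ℂ, DifferentiableOn ℂ g (ball 0 ρ) ∧
      g 0 = 0 ∧ (∀ w ∈ ball (0 : ℂ) ρ, deriv g w = deriv F (s0 + w) / F (s0 + w) - h) ∧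
      ∀ w ∈ ball (0 : ℂ) ρ, F (s0 + w) = F s0 * cexp (h * w + g w) := by
  have hd : DifferentiableOn ℂ (fun w : ℂ => deriv F (s0 + w) / F (s0 + w) - h) (ball 0 ρ) := by
    intro w hw
    have h1 : DifferentiableAt ℂ (fun w : ℂ => deriv F (s0 + w)) w :=
      (hF.deriv (s0 + w)).comp w (by fun_prop)
    have h2 : DifferentiableAt ℂ (fun w : ℂ => F (s0 + w)) w := (hF (s0 + w)).comp w (by fun_prop)
    exact ((h1.fun_div h2 (hne w hw)).sub_const _).differentiableWithinAt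
  obtain ⟨G, hG⟩ := hd.isExactOn_ball
  obtain ⟨g, hg⟩ : ∃ g : ℂ → ℂ, g = fun w => G w - G 0 := ⟨_, rfl⟩
  have hgd : ∀ w ∈ ball (0 : ℂ) ρ, HasDerivAt g (deriv F (s0 + w) / F (s0 + w) - h) w := by
    intro w hw
    rw [hg]
    exact (hG w hw).sub_const _
  have h0 : (0 : ℂ) ∈ ball (0 : ℂ) ρ := mem_ball_self hρ
  refine ⟨g, fun w hw => (hgd w hw).differentiableAt.differentiableWithinAt, by rw [hg]; simp,
    fun w hw => (hgd w hw).deriv, ?_⟩
  obtain ⟨q, hq⟩ : ∃ q : ℂ → ℂ, q = fun w => F (s0 + w) * cexp (-(h * w + g w)) := ⟨_, rfl⟩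
  have hqd : ∀ w ∈ ball (0 : ℂ) ρ, HasDerivAt q 0 w := by
    intro w hw
    have h1 : HasDerivAt (fun w : ℂ => F (s0 + w)) (deriv F (s0 + w)) w := by
      have := (hF (s0 + w)).hasDerivAt.comp w ((hasDerivAt_id w).const_add s0)
      rw [mul_one] at this
      exact this
    have h2 : HasDerivAt (fun w : ℂ => -((h : ℂ) * w + g w))
        (-(h * 1 + (deriv F (s0 + w) / F (s0 + w) - h))) w :=
      (((hasDerivAt_id w).const_mul (h : ℂ)).add (hgd w hw)).neg
    have h3 := h1.mul h2.cexp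
    rw [hq]
    refine h3.congr_deriv ?_
    have := hne w hw
    field_simp
    ring
  have hconst : ∀ w ∈ ball (0 : ℂ) ρ, q w = q 0 := by
    intro w hw
    have h1 : DifferentiableOn ℂ q (ball 0 ρ) := fun w hw =>
      (hqd w hw).differentiableAt.differentiableWithinAt
    refine (isOpen_ball.is_const_of_deriv_eq_zero (convex_ball _ _).isPreconnected h1
      (fun w hw => (hqd w hw).deriv) hw h0)
  intro w hw
  have h1 := hconst w hw
  rw [hq] at h1
  simp only [add_zero, mul_zero] at h1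
  have hg0 : g 0 = 0 := by rw [hg]; simp
  rw [hg0, add_zero, neg_zero, Complex.exp_zero, mul_one] at h1
  rw [← h1, mul_assoc, ← Complex.exp_add, neg_add_cancel, Complex.exp_zero, mul_one]

end Pool.Agent.TH839.ZT
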