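import Pool.Agent.TH839.ZT.Pathk
import Pool.Agent.TH839.ZT.Log

/-!
# Project ZT: from the function to the derivatives
-/

set_option autoImplicit false

open Complex MeasureTheory Filter Topology Set Metric
open scoped ComplexConjugate

namespace Pool.Agent.TH839.ZT

open Pool.Agent.W169.HF H353.E Pool.Agent.W355.UN Pool.Agent.TH839.UH Pool.Agent.TH839.LD

variable {m : ℕ} {B : ℝ → ℝ} {N θ : ℝ} {μ : Fin m → ℂ} {X L : ℂ → ℂ}

/-- two-sided bounds and the logarithmic derivative in a zero-free region -/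
theorem ne_ul (hne : S_NE) (δ ε : ℝ) (hδ : 0 < δ) (hδ1 : δ ≤ 1) (hε : 0 < ε) : ∃ κ : ℝ, 0 < κ ∧
    ∀ (m : ℕ) (B : ℝ → ℝ) (N : ℝ) (μ : Fin m → ℂ) (X L : ℂ → ℂ), UL m B N 1 μ X L →
      ∀ (n : ℕ) (y η : ℝ), 0 ≤ η → η ≤ 2 → 1 ≤ hc N μ y →
        1601 * Kn m (B 1) n ≤ κ * hc N μ y →
        (∀ s : ℂ, 1 / 2 + η ≤ s.re → |s.im - y| ≤ 20 → iteratedDeriv n X s ≠ 0) →
        ∀ u : ℂ, η + δ ≤ u.re → u.re ≤ 4 → |u.im| ≤ 1 →
          ‖iteratedDeriv n X (7 / 2 + (y : ℂ) * I)‖ *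
            Real.exp (hc N μ y * (u.re - 3) - ε * hc N μ y) ≤
              ‖iteratedDeriv n X (1 / 2 + (y : ℂ) * I + u)‖ ∧
          ‖iteratedDeriv n X (1 / 2 + (y : ℂ) * I + u)‖ ≤
            ‖iteratedDeriv n X (7 / 2 + (y : ℂ) * I)‖ *
              Real.exp (hc N μ y * (u.re - 3) + ε * hc N μ y) ∧
          ‖deriv (iteratedDeriv n X) (1 / 2 + (y : ℂ) * I + u) /
            iteratedDeriv n X (1 / 2 + (y : ℂ) * I + u) - hc N μ y‖ ≤ ε * hc N μ y := by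
  obtain ⟨κ, hκ, H⟩ := hne δ ε hδ hδ1 hε
  refine ⟨κ, hκ, ?_⟩
  intro m B N μ X L h n y η hη0 hη2 hh hK hzf u hu1 hu2 hu3
  obtain ⟨Q, hQ⟩ : ∃ Q : ℝ, Q = ‖iteratedDeriv n X (7 / 2 + (y : ℂ) * I)‖ := ⟨_, rfl⟩
  obtain ⟨e, he⟩ : ∃ e : ℝ, e = hc N μ y := ⟨_, rfl⟩
  obtain ⟨-, hne', hup, hlo⟩ := prf h le_rfl n y
  have hQ0 : 0 < Q := by rw [hQ]; exact norm_pos_iff.2 hne'
  rw [← hQ, ← he] at hup hlo ⊢
  rw [← he] at hh hK
  have hKn := Kn_nonneg (m := m) (h.hB 1) n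
  have hd := iter_diff h n
  have hkk : ∀ u : ℂ, ‖u‖ ≤ 40 → Kn m (B 1) n * (1 + ‖u‖ ^ 2) ≤ κ * e := by
    intro u hu
    have h1 : ‖u‖ ^ 2 ≤ 40 ^ 2 := pow_le_pow_left₀ (norm_nonneg _) hu 2
    have h2 : Kn m (B 1) n * (1 + ‖u‖ ^ 2) ≤ Kn m (B 1) n * 1601 :=
      mul_le_mul_of_nonneg_left (by linarith) hKn
    linarith
  have hder : ∀ v : ℂ, deriv (fun u => iteratedDeriv n X (1 / 2 + (y : ℂ) * I + u)) v =
      deriv (iteratedDeriv n X) (1 / 2 + (y : ℂ) * I + v) := fun v => by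
    rw [deriv_comp_const_add (f := iteratedDeriv n X)]
  have R := H e (Q * Real.exp (-(3 * e))) η (fun u => iteratedDeriv n X (1 / 2 + (y : ℂ) * I + u)) hh
    (by positivity) hη0 hη2 (hd.comp (by fun_prop)) ?_ ?_ ?_ u hu1 hu2 hu3
  · simp only [hder] at R
    obtain ⟨R1, R2, R3⟩ := R
    refine ⟨?_, ?_, R3⟩
    · refine le_trans (le_of_eq ?_) R1
      rw [mul_assoc, ← Real.exp_add]
      congr 2
      ring
    · refine R2.trans (le_of_eq ?_)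
      rw [mul_assoc, ← Real.exp_add]
      congr 2
      ring
  · intro v hv1 hv2
    apply hzf
    · simp
      linarith
    · simpa using hv2
  · intro v hv
    refine (hup v).trans ?_
    rw [mul_assoc, ← Real.exp_add]
    refine mul_le_mul_of_nonneg_left (Real.exp_le_exp.2 ?_) hQ0.le
    have := hkk v hv
    linarith
  · intro v hv hv2
    refine le_trans ?_ (hlo v hv)
    rw [mul_assoc, ← Real.exp_add]
    refine mul_le_mul_of_nonneg_left (Real.exp_le_exp.2 ?_) hQ0.le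
    have := hkk v hv2
    linarith

lemma point (s : ℂ) : s = 1 / 2 + (s.im : ℂ) * I + ((s.re - 1 / 2 : ℝ) : ℂ) := by
  apply Complex.ext
  · simp
  · simp

/-- to the right of `7/2` there are no zeros -/
lemma right_ne (h : UL m B N 1 μ X L) (n : ℕ) {s : ℂ} (hs : 7 / 2 ≤ s.re) :
    iteratedDeriv n X s ≠ 0 := by
  obtain ⟨-, h1, -, h2⟩ := prf h le_rfl n s.im
  have h3 := h2 ((s.re - 1 / 2 : ℝ) : ℂ) (by rw [ofReal_re]; linarith)
  rw [← point s] at h3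
  have h4 : 0 < ‖iteratedDeriv n X (7 / 2 + (s.im : ℂ) * I)‖ := norm_pos_iff.2 h1
  intro h0
  rw [h0, norm_zero] at h3
  have h5 : 0 < ‖iteratedDeriv n X (7 / 2 + (s.im : ℂ) * I)‖ * Real.exp (hc N μ s.im *
    (((s.re - 1 / 2 : ℝ) : ℂ).re - 3) - Kn m (B 1) n * (1 + ‖((s.re - 1 / 2 : ℝ) : ℂ)‖ ^ 2)) := by
    positivity
  linarith

/-- from the function to its derivatives -/
theorem up_ul (hne : S_NE) (hsadu : S_SADU) (m : ℕ) (b : ℝ) (δ : ℝ) (hδ : 0 < δ) (hδ1 : δ ≤ 1) :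
    ∃ κ h0 : ℝ, 0 < κ ∧ ∀ (B : ℝ → ℝ) (N : ℝ) (μ : Fin m → ℂ) (X L : ℂ → ℂ),
      UL m B N 1 μ X L → B 1 = b → ∀ (n : ℕ) (η T : ℝ), 0 ≤ η → h0 ≤ hc N μ T →
        n ≤ κ * hc N μ T → (∀ s : ℂ, 1 / 2 + η ≤ s.re → |s.im - T| ≤ 21 → X s ≠ 0) →
          ∀ s : ℂ, 1 / 2 + η + δ ≤ s.re → |s.im - T| ≤ 1 → iteratedDeriv n X s ≠ 0 := by
  obtain ⟨ε0, hε0, HS⟩ := hsadu
  obtain ⟨κ1, h1, hκ1, HS⟩ := HS (δ / 2) (by positivity) (by linarith)
  obtain ⟨κ2, hκ2, HN⟩ := ne_ul hne (δ / 2) ε0 (by positivity) (by linarith) hε0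
  have E : ∀ C k : ℝ, 0 < k → ∀ᶠ h : ℝ in atTop, C ≤ k * h := fun C k hk =>
    (tendsto_id.const_mul_atTop hk).eventually_ge_atTop C
  obtain ⟨h0, H0⟩ := eventually_atTop.1 ((E 2 1 one_pos).and ((E (m * 1) (1 / 2) (by norm_num)).and
    ((E h1 (1 / 2) (by norm_num)).and (E (1601 * Kn m b 0) (κ2 / 2) (by positivity)))))
  refine ⟨κ1 / 2, h0, by positivity, ?_⟩
  intro B N μ X L h hBb n η T hη0 hh0 hn hzf s hs1 hs2
  obtain ⟨c1, c2, c3, c4⟩ := H0 _ hh0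
  rw [one_mul] at c1
  rcases le_total (7 / 2) s.re with h35 | h35
  · exact right_ne h n h35
  obtain ⟨a1, a2⟩ := hc_near h.hN μ (T := T) (T1 := s.im) (R := 1) hs2
  obtain ⟨e, he⟩ : ∃ e : ℝ, e = hc N μ s.im := ⟨_, rfl⟩
  rw [← he] at a1 a2
  have hhalf : hc N μ T / 2 ≤ e := by linarith
  have he1 : 1 ≤ e := by linarith
  obtain ⟨η', hη'⟩ : ∃ η' : ℝ, η' = min η 2 := ⟨_, rfl⟩
  have b1 : η' ≤ η := by rw [hη']; exact min_le_left _ _
  have b2 : η' ≤ 2 := by rw [hη']; exact min_le_right _ _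
  have b3 : 0 ≤ η' := by rw [hη']; exact le_min hη0 (by norm_num)
  have hz' : ∀ z : ℂ, 1 / 2 + η' ≤ z.re → |z.im - s.im| ≤ 20 → iteratedDeriv 0 X z ≠ 0 := by
    intro z hz1 hz2
    rw [iteratedDeriv_zero]
    rcases le_total η 2 with h3 | h3
    · rw [hη', min_eq_left h3] at hz1
      refine hzf z hz1 ?_
      have e1 : z.im - T = (z.im - s.im) + (s.im - T) := by ring
      rw [e1]
      exact (abs_add_le _ _).trans (by linarith)
    · rw [hη', min_eq_right h3] at hz1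
      exact h.Xne (by linarith)
  have hN1 := HN m B N μ X L h 0 s.im η' b3 b2 (by rw [← he]; exact he1)
    (by
      rw [hBb, ← he]
      have : κ2 / 2 * hc N μ T ≤ κ2 * e := by
        have := mul_le_mul_of_nonneg_left hhalf hκ2.le
        linarith
      linarith) hz'
  simp only [iteratedDeriv_zero] at hN1
  rw [← he] at hN1
  have hmem : ∀ w ∈ ball (0 : ℂ) (δ / 2), η' + δ / 2 ≤ (((s.re - 1 / 2 : ℝ) : ℂ) + w).re ∧
      (((s.re - 1 / 2 : ℝ) : ℂ) + w).re ≤ 4 ∧ |(((s.re - 1 / 2 : ℝ) : ℂ) + w).im| ≤ 1 := by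
    intro w hw
    rw [mem_ball_zero_iff] at hw
    have h1 := abs_le.1 ((Complex.abs_re_le_norm w).trans hw.le)
    have h2 := (Complex.abs_im_le_norm w).trans hw.le
    rw [add_re, add_im, ofReal_re, ofReal_im, zero_add]
    exact ⟨by linarith, by linarith, by linarith⟩
  have hpt : ∀ w : ℂ, 1 / 2 + (s.im : ℂ) * I + (((s.re - 1 / 2 : ℝ) : ℂ) + w) = s + w := fun w => by
    rw [← add_assoc, ← point s]
  have hXd : Differentiable ℂ X := h.slow.1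
  have hXne : ∀ w ∈ ball (0 : ℂ) (δ / 2), X (s + w) ≠ 0 := by
    intro w hw
    obtain ⟨d1, d2, d3⟩ := hmem w hw
    obtain ⟨d4, -, -⟩ := hN1 _ d1 d2 d3
    rw [hpt] at d4
    obtain ⟨d5, -⟩ := prf h le_rfl 0 s.im
    intro h0
    rw [h0, norm_zero] at d4
    have d6 : 0 < ‖X (7 / 2 + (s.im : ℂ) * I)‖ := norm_pos_iff.2 d5
    have d7 : 0 < ‖X (7 / 2 + (s.im : ℂ) * I)‖ * Real.exp (e *
      ((((s.re - 1 / 2 : ℝ) : ℂ) + w).re - 3) - ε0 * e) := by positivity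
    linarith
  obtain ⟨g, hg1, hg2, hg3, hg4⟩ := logrep (h := e) (by positivity) hXd hXne
  have hXs : X s ≠ 0 := by
    have := hXne 0 (mem_ball_self (by positivity))
    rwa [add_zero] at this
  have hfin := HS e n (fun w => (X s)⁻¹ * X (s + w)) g (by linarith) (by
      have : κ1 / 2 * hc N μ T ≤ κ1 * e := by
        have := mul_le_mul_of_nonneg_left hhalf hκ1.le
        linarith
      linarith) ((hXd.comp (by fun_prop : Differentiable ℂ fun w : ℂ => s + w)).const_mul _) hg1 hg2 ?_ ?_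
  · intro h0
    apply hfin
    have e1 : (fun w => (X s)⁻¹ * X (s + w)) = fun w => (X s)⁻¹ * (fun w => X (s + w)) w := rfl
    rw [e1, iteratedDeriv_const_mul_field, iteratedDeriv_comp_const_add]
    show (X s)⁻¹ * iteratedDeriv n X (s + 0) = 0
    rw [add_zero, h0, mul_zero]
  · intro w hw
    obtain ⟨d1, d2, d3⟩ := hmem w hw
    obtain ⟨-, -, d4⟩ := hN1 _ d1 d2 d3
    rw [hpt] at d4
    rw [hg3 w hw]
    exact d4
  · intro w hw
    rw [hg4 w hw, ← mul_assoc, inv_mul_cancel₀ hXs, one_mul]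

end Pool.Agent.TH839.ZT
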